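import Mathlib

/-!
# The space of closed points of the Hilbert scheme of points of affine space
-/

set_option autoImplicit false

open MvPolynomial Topology


namespace Pool.Agent.V5helper89.Hilb

noncomputable section

universe u

variable (k : Type u) [Field k] (n r : ℕ)

/-- The closed points of the Hilbert scheme of `r` points of `𝔸ⁿ` over `k`: the ideals of
`k[x_1, …, x_n]` of colength `r`. -/
def HilbPt : Type u :=
  {I : Ideal (MvPolynomial (Fin n) k) //
    Module.Finite k (MvPolynomial (Fin n) k ⧸ I) ∧
      Module.finrank k (MvPolynomial (Fin n) k ⧸ I) = r}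

/-- A flat family of closed subschemes of length `r` of `𝔸ⁿ` over the affine scheme `Spec A`, for a
`k`-algebra `A`: an ideal `J` of `A[x_1, …, x_n]` such that `A[x_1, …, x_n] / J` is a free
`A`-module of rank `r`. -/
structure Family where
  A : Type u
  [ring : CommRing A]
  [alg : Algebra k A]
  J : Ideal (MvPolynomial (Fin n) A)
  basis : Module.Basis (Fin r) A (MvPolynomial (Fin n) A ⧸ J)

attribute [instance] Family.ring Family.alg

variable {k n r}

/-- The fibre of the family over the `k`-point `t` of `Spec A`, as an ideal of `k[x_1, …, x_n]`. -/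
def Family.fibreIdeal (F : Family k n r) (t : F.A →ₐ[k] k) : Ideal (MvPolynomial (Fin n) k) :=
  F.J.map (MvPolynomial.map (t : F.A →+* k))

/-- the coordinates of the classes of the monomials, at the point `t` -/
def Family.coord (F : Family k n r) (t : F.A →ₐ[k] k) :
    MvPolynomial (Fin n) k →ₗ[k] (Fin r → k) :=
  (MvPolynomial.basisMonomials (Fin n) k).constr k fun m =>
    fun j => t (F.basis.repr (Ideal.Quotient.mk F.J (monomial m 1)) j)

lemma Family.coord_map (F : Family k n r) (t : F.A →ₐ[k] k) (f : MvPolynomial (Fin n) F.A)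
    (j : Fin r) :
    F.coord t (MvPolynomial.map (t : F.A →+* k) f) j =
      t (F.basis.repr (Ideal.Quotient.mk F.J f) j) := by
  induction f using MvPolynomial.induction_on' with
  | monomial m a =>
    rw [MvPolynomial.map_monomial]
    have h1 : (monomial m ((t : F.A →+* k) a) : MvPolynomial (Fin n) k) =
        (t a) • (MvPolynomial.basisMonomials (Fin n) k m) := by
      rw [coe_basisMonomials, smul_monomial]
      simp
    have h2 : (monomial m a : MvPolynomial (Fin n) F.A) = a • (monomial m 1) := by
      rw [smul_monomial]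
      simp
    have h3 : Ideal.Quotient.mk F.J (a • (monomial m 1)) =
        a • Ideal.Quotient.mk F.J (monomial m 1) := rfl
    rw [h1, map_smul, h2, h3, map_smul]
    unfold Family.coord
    rw [Module.Basis.constr_basis]
    simp
  | add f g hf hg =>
    rw [map_add, map_add, Pi.add_apply, hf, hg, map_add, map_add, Finsupp.add_apply, map_add]

lemma Family.map_surjective (F : Family k n r) (t : F.A →ₐ[k] k) :
    Function.Surjective (MvPolynomial.map (σ := Fin n) (t : F.A →+* k)) := by
  apply MvPolynomial.map_surjective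
  intro a
  exact ⟨algebraMap k F.A a, by simp⟩

lemma Family.coord_surjective (F : Family k n r) (t : F.A →ₐ[k] k) :
    Function.Surjective (F.coord t) := by
  intro v
  obtain ⟨f, hf⟩ := Ideal.Quotient.mk_surjective
    (∑ j, (algebraMap k F.A (v j)) • F.basis j)
  refine ⟨MvPolynomial.map (t : F.A →+* k) f, ?_⟩
  ext j
  rw [F.coord_map, hf]
  have h1 : F.basis.repr (∑ j, (algebraMap k F.A (v j)) • F.basis j) j = algebraMap k F.A (v j) := by
    have := F.basis.repr_sum_self (fun j => algebraMap k F.A (v j))
    exact congrFun this j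
  rw [h1]
  simp

lemma Family.ker_coord (F : Family k n r) (t : F.A →ₐ[k] k) (g : MvPolynomial (Fin n) k) :
    g ∈ F.fibreIdeal t ↔ F.coord t g = 0 := by
  unfold Family.fibreIdeal
  rw [Ideal.mem_map_iff_of_surjective _ (F.map_surjective t)]
  constructor
  · rintro ⟨f, hf, rfl⟩
    ext j
    rw [F.coord_map, Ideal.Quotient.eq_zero_iff_mem.2 hf]
    simp
  · intro hg
    obtain ⟨f, rfl⟩ := F.map_surjective t g
    choose e he using fun j => Ideal.Quotient.mk_surjective (I := F.J) (F.basis j)
    set a := F.basis.repr (Ideal.Quotient.mk F.J f) with ha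
    refine ⟨f - ∑ j, (C (a j)) * e j, ?_, ?_⟩
    · rw [← Ideal.Quotient.eq_zero_iff_mem, map_sub, map_sum, sub_eq_zero]
      have h1 : ∀ j, Ideal.Quotient.mk F.J (C (a j) * e j) = a j • F.basis j := by
        intro j
        rw [C_mul', ← he]
        rfl
      rw [Finset.sum_congr rfl fun j _ => h1 j, ha, F.basis.sum_repr]
    · rw [map_sub, map_sum, sub_eq_self]
      refine Finset.sum_eq_zero fun j _ => ?_
      rw [map_mul, MvPolynomial.map_C]
      have h2 : (t : F.A →+* k) (a j) = 0 := by
        have h3 := congrFun hg j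
        rw [F.coord_map] at h3
        exact h3
      rw [h2, map_zero, zero_mul]

/-- The ideal which is the kernel of a linear map. -/
lemma finrank_of_ker {ι : Type*} [Fintype ι] {I : Ideal (MvPolynomial (Fin n) k)}
    (φ : MvPolynomial (Fin n) k →ₗ[k] (ι → k)) (hs : Function.Surjective φ)
    (hk : ∀ g, g ∈ I ↔ φ g = 0) :
    Module.Finite k (MvPolynomial (Fin n) k ⧸ I) ∧
      Module.finrank k (MvPolynomial (Fin n) k ⧸ I) = Fintype.card ι := by
  have h1 : I.restrictScalars k = LinearMap.ker φ := by
    ext g
    rw [Submodule.restrictScalars_mem, hk, LinearMap.mem_ker]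
  have e : (MvPolynomial (Fin n) k ⧸ I) ≃ₗ[k] (ι → k) :=
    ((Submodule.Quotient.restrictScalarsEquiv k I).symm.trans
      (Submodule.quotEquivOfEq _ _ h1)).trans (φ.quotKerEquivOfSurjective hs)
  exact ⟨Module.Finite.equiv e.symm, by rw [e.finrank_eq, Module.finrank_pi]⟩

lemma Family.fibre_aux (F : Family k n r) (t : F.A →ₐ[k] k) :
    Module.Finite k (MvPolynomial (Fin n) k ⧸ F.fibreIdeal t) ∧
      Module.finrank k (MvPolynomial (Fin n) k ⧸ F.fibreIdeal t) = r := by
  have h := finrank_of_ker (F.coord t) (F.coord_surjective t) (F.ker_coord t)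
  rwa [Fintype.card_fin] at h

/-- The classifying map of the family on the `k`-points of `Spec A`. -/
def Family.fibre (F : Family k n r) (t : F.A →ₐ[k] k) : HilbPt k n r :=
  ⟨F.fibreIdeal t, F.fibre_aux t⟩

/-- The closed point of `Spec A` which is given by a homomorphism of `k`-algebras `A → k`. -/
def specPt {A : Type*} [CommRing A] [Algebra k A] (t : A →ₐ[k] k) : PrimeSpectrum A :=
  ⟨RingHom.ker t, RingHom.ker_isPrime t⟩

/-- The Zariski topology on the `k`-points of `Spec A`. -/
@[instance_reducible]
def zariski (k A : Type*) [Field k] [CommRing A] [Algebra k A] : TopologicalSpace (A →ₐ[k] k) :=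
  TopologicalSpace.induced specPt inferInstance

variable (k n r)

/-- The Zariski topology on the closed points of the Hilbert scheme of `r` points of `𝔸ⁿ`: a set is
open if and only if its preimages under the classifying maps of all families are open. -/
instance : TopologicalSpace (HilbPt k n r) :=
  ⨆ F : Family k n r, TopologicalSpace.coinduced F.fibre (zariski k F.A)

variable {k n r}

lemma isOpen_iff_family (W : Set (HilbPt k n r)) :
    IsOpen W ↔ ∀ F : Family k n r, IsOpen[zariski k F.A] (F.fibre ⁻¹' W) := by
  rw [isOpen_iSup_iff]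
  rfl

lemma isOpen_zariski_iff {A : Type*} [CommRing A] [Algebra k A] (V : Set (A →ₐ[k] k)) :
    IsOpen[zariski k A] V ↔ ∀ t ∈ V, ∃ a : A, t a ≠ 0 ∧ ∀ s : A →ₐ[k] k, s a ≠ 0 → s ∈ V := by
  constructor
  · intro h t ht
    obtain ⟨U, hU, rfl⟩ := isOpen_induced_iff.1 h
    obtain ⟨_, ⟨a, rfl⟩, ha, hsub⟩ :=
      PrimeSpectrum.isTopologicalBasis_basic_opens.exists_subset_of_mem_open ht hU
    refine ⟨a, ?_, ?_⟩
    · intro h0
      exact ha (by simpa [specPt, RingHom.mem_ker] using h0)
    · intro s hs
      apply hsub
      intro h0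
      exact hs (by simpa [specPt, RingHom.mem_ker] using h0)
  · intro h
    let _ := zariski k A
    rw [isOpen_iff_mem_nhds]
    intro t ht
    obtain ⟨a, ha, hsub⟩ := h t ht
    refine mem_nhds_iff.2 ⟨{s | s a ≠ 0}, fun s hs => hsub s hs, ?_, ha⟩
    refine isOpen_induced_iff.2 ⟨PrimeSpectrum.basicOpen a, (PrimeSpectrum.basicOpen a).isOpen, ?_⟩
    ext s
    simp only [Set.mem_preimage, SetLike.mem_coe, PrimeSpectrum.mem_basicOpen, Set.mem_ofPred_eq]
    simp [specPt, RingHom.mem_ker]

end

end Pool.Agent.V5helper89.Hilb
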