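import Pool.Agent.V5helper89.Hilb.Relation

/-!
# A large family of ideals
-/

set_option autoImplicit false

open MvPolynomial Topology

namespace Pool.Agent.V5helper89.Hilb

noncomputable section

/-- monomials all of whose exponents are at most `s` -/
def box (n s : ℕ) : Finset (Fin n →₀ ℕ) := Finset.Iic (Finsupp.equivFunOnFinite.symm fun _ => s)

lemma mem_box_of_degree {n s : ℕ} {m : Fin n →₀ ℕ} (h : m.degree ≤ s) : m ∈ box n s := by
  unfold box
  rw [Finset.mem_Iic]
  intro i
  exact (Finsupp.le_degree i m).trans h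

lemma card_box (n s : ℕ) : (box n s).card ≤ (s + 1) ^ n := by
  unfold box
  rw [Finsupp.card_Iic]
  refine (Finset.prod_le_prod_of_subset_of_one_le' (Finset.subset_univ _) ?_).trans ?_
  · intro i _ _
    rw [Nat.card_Iic]
    omega
  · refine le_of_eq ?_
    rw [Finset.prod_congr rfl (g := fun _ => s + 1)]
    · rw [Finset.prod_const, Finset.card_univ, Fintype.card_fin]
    · intro i _
      rw [Nat.card_Iic]
      rfl

section family

universe u

variable (k : Type u) [Field k] {n : ℕ} (s : ℕ) (T : (Fin n →₀ ℕ) → Prop)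

open scoped Classical in
/-- the monomials of degree `s` in `T` -/
def tSet : Finset (Fin n →₀ ℕ) := (box n s).filter fun m => m.degree = s ∧ T m

open scoped Classical in
/-- the monomials of degree `s` not in `T` -/
def cSet : Finset (Fin n →₀ ℕ) := (box n s).filter fun m => m.degree = s ∧ ¬ T m

open scoped Classical in
/-- the monomials of degree less than `s`, and those in `T` -/
def bSet : Finset (Fin n →₀ ℕ) := (box n s).filter fun m => m.degree < s ∨ (m.degree = s ∧ T m)

variable {s T}

lemma mem_tSet {m : Fin n →₀ ℕ} : m ∈ tSet s T ↔ m.degree = s ∧ T m := by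
  classical
  unfold tSet
  rw [Finset.mem_filter]
  exact ⟨fun h => h.2, fun h => ⟨mem_box_of_degree h.1.le, h⟩⟩

lemma mem_cSet {m : Fin n →₀ ℕ} : m ∈ cSet s T ↔ m.degree = s ∧ ¬ T m := by
  classical
  unfold cSet
  rw [Finset.mem_filter]
  exact ⟨fun h => h.2, fun h => ⟨mem_box_of_degree h.1.le, h⟩⟩

lemma mem_bSet {m : Fin n →₀ ℕ} : m ∈ bSet s T ↔ m.degree < s ∨ (m.degree = s ∧ T m) := by
  classical
  unfold bSet
  rw [Finset.mem_filter]
  refine ⟨fun h => h.2, fun h => ⟨mem_box_of_degree ?_, h⟩⟩
  rcases h with h | h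
  · exact h.le
  · exact h.1.le

lemma tSet_subset : tSet s T ⊆ bSet s T := by
  intro m hm
  rw [mem_bSet]
  exact Or.inr (mem_tSet.1 hm)

lemma bSet_subset : bSet s T ⊆ box n s := by
  classical
  exact Finset.filter_subset _ _

open scoped Classical in
/-- The quotient map of the family on the monomials. -/
def psiFun (A : cSet s T × tSet s T → k) (m : Fin n →₀ ℕ) (t : bSet s T) : k :=
  if m ∈ bSet s T then (if m = t.1 then 1 else 0)
  else if h : m ∈ cSet s T then (if ht : t.1 ∈ tSet s T then A (⟨m, h⟩, ⟨t.1, ht⟩) else 0) else 0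

/-- The quotient map of the family. -/
def psi (A : cSet s T × tSet s T → k) : MvPolynomial (Fin n) k →ₗ[k] (bSet s T → k) :=
  (MvPolynomial.basisMonomials (Fin n) k).constr k (psiFun k A)

variable {k}

lemma psi_monomial (A : cSet s T × tSet s T → k) (m : Fin n →₀ ℕ) :
    psi k A (monomial m 1) = psiFun k A m := by
  have h := (MvPolynomial.basisMonomials (Fin n) k).constr_basis k (psiFun k A) m
  rw [coe_basisMonomials] at h
  exact h

lemma psi_monomial' (A : cSet s T × tSet s T → k) (m : Fin n →₀ ℕ) (a : k) :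
    psi k A (monomial m a) = a • psiFun k A m := by
  rw [← psi_monomial, ← map_smul, smul_monomial, smul_eq_mul, mul_one]

open scoped Classical in
lemma psiFun_bSet (A : cSet s T × tSet s T → k) (t : bSet s T) :
    psiFun k A t.1 = Pi.single t 1 := by
  ext t'
  unfold psiFun
  rw [if_pos t.2, Pi.single_apply]
  by_cases h : t.1 = t'.1
  · rw [if_pos h, if_pos (Subtype.ext h.symm)]
  · rw [if_neg h, if_neg (fun h' => h (congrArg Subtype.val h'.symm))]

lemma psiFun_of_lt (A : cSet s T × tSet s T → k) {m : Fin n →₀ ℕ} (h : s < m.degree) :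
    psiFun k A m = 0 := by
  ext t
  unfold psiFun
  rw [if_neg, dif_neg]
  · rfl
  · rw [mem_cSet]
    omega
  · rw [mem_bSet]
    omega

lemma psi_surjective (A : cSet s T × tSet s T → k) : Function.Surjective (psi k A) := by
  classical
  intro v
  refine ⟨∑ t, v t • (monomial t.1 1), ?_⟩
  rw [map_sum]
  ext t'
  rw [Finset.sum_apply, Finset.sum_eq_single t']
  · rw [map_smul, psi_monomial, psiFun_bSet]
    simp
  · intro t _ ht
    rw [map_smul, psi_monomial, psiFun_bSet]
    simp [ht.symm]
  · intro h
    exact absurd (Finset.mem_univ _) h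

lemma coeff_eq_zero_of_psi (A : cSet s T × tSet s T → k) {g : MvPolynomial (Fin n) k}
    (hg : psi k A g = 0) {m : Fin n →₀ ℕ} (hm : m.degree < s) : coeff m g = 0 := by
  classical
  have hmb : m ∈ bSet s T := mem_bSet.2 (Or.inl hm)
  have h1 := congrFun hg ⟨m, hmb⟩
  rw [g.as_sum, map_sum, Finset.sum_apply] at h1
  have h2 : ∀ m' ∈ g.support, psi k A (monomial m' (coeff m' g)) ⟨m, hmb⟩ =
      if m' = m then coeff m' g else 0 := by
    intro m' _
    rw [psi_monomial', Pi.smul_apply, smul_eq_mul]
    unfold psiFun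
    have ht : m ∉ tSet s T := by
      rw [mem_tSet]
      omega
    by_cases h3 : m' ∈ bSet s T
    · rw [if_pos h3]
      simp
    · rw [if_neg h3, if_neg (fun h4 : m' = m => h3 (h4 ▸ hmb))]
      split_ifs <;> simp
  rw [Finset.sum_congr rfl h2, Finset.sum_ite_eq' g.support m] at h1
  by_cases h3 : m ∈ g.support
  · rw [if_pos h3] at h1
    exact h1
  · exact notMem_support_iff.1 h3

lemma psi_mul_eq_zero (A : cSet s T × tSet s T → k) (f : MvPolynomial (Fin n) k)
    {g : MvPolynomial (Fin n) k} (hg : psi k A g = 0) : psi k A (f * g) = 0 := by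
  induction f using MvPolynomial.induction_on' with
  | add p q hp hq => rw [add_mul, map_add, hp, hq, add_zero]
  | monomial a c =>
    by_cases ha : a = 0
    · subst ha
      have : (monomial (0 : Fin n →₀ ℕ) c : MvPolynomial (Fin n) k) * g = c • g := by
        rw [← C_apply, C_mul']
      rw [this, map_smul, hg, smul_zero]
    · rw [g.as_sum, Finset.mul_sum, map_sum]
      refine Finset.sum_eq_zero fun m hm => ?_
      rw [monomial_mul, psi_monomial', psiFun_of_lt, smul_zero]
      rw [map_add]
      have h1 : s ≤ m.degree := by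
        by_contra hlt
        exact (mem_support_iff.1 hm) (coeff_eq_zero_of_psi A hg (not_le.1 hlt))
      have h2 : a.degree ≠ 0 := by
        rw [Ne, Finsupp.degree_eq_zero_iff]
        exact ha
      omega

/-- The ideal with the parameters `A`. -/
def famIdeal (A : cSet s T × tSet s T → k) : Ideal (MvPolynomial (Fin n) k) where
  carrier := {g | psi k A g = 0}
  add_mem' := by
    intro f g hf hg
    change psi k A (f + g) = 0
    rw [map_add, show psi k A f = 0 from hf, show psi k A g = 0 from hg, add_zero]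
  zero_mem' := map_zero _
  smul_mem' := fun f _ hg => psi_mul_eq_zero A f hg

/-- There is an open set of indecomposable ideals. -/
theorem exists_open [Infinite k] {R : ℕ}
    (h : Fintype.card (PIdx n (bSet s T).card R) < (cSet s T).card * (tSet s T).card) :
    ∃ W : Set (HilbPt k n (bSet s T).card), IsOpen W ∧ W.Nonempty ∧ ∀ I ∈ W, ¬ Dec R I.1 := by
  classical
  let e : bSet s T ≃ Fin (bSet s T).card := (bSet s T).equivFin
  set b : Fin (bSet s T).card → (Fin n →₀ ℕ) := fun i => (e.symm i).1 with hb
  set c : (cSet s T × tSet s T) → (Fin n →₀ ℕ) × Fin (bSet s T).card :=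
    fun α => (α.1.1, e ⟨α.2.1, tSet_subset α.2.2⟩) with hc
  obtain ⟨P, hP0, hP⟩ := exists_relation (k := k) (R := R) b c (by
    rw [Fintype.card_prod (cSet s T) (tSet s T), Fintype.card_coe, Fintype.card_coe]
    exact h)
  have hframe : ∀ A : cSet s T × tSet s T → k, IsFrame (reindex e (psi k A)) (famIdeal A) :=
    fun A => isFrame_reindex e ⟨psi_surjective A, fun g => Iff.rfl⟩
  have hpt : ∀ A : cSet s T × tSet s T → k,
      Module.Finite k (MvPolynomial (Fin n) k ⧸ famIdeal A) ∧
        Module.finrank k (MvPolynomial (Fin n) k ⧸ famIdeal A) = (bSet s T).card := by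
    intro A
    have h1 := finrank_of_ker _ (hframe A).1 (hframe A).2
    rwa [Fintype.card_fin] at h1
  have hnormal : ∀ A : cSet s T × tSet s T → k, IsNormal b (reindex e (psi k A)) := by
    intro A i
    ext j
    change psi k A (monomial (b i) 1) (e.symm j) = _
    rw [psi_monomial, hb]
    simp only
    rw [psiFun_bSet, Pi.single_apply, Pi.single_apply]
    by_cases hij : j = i
    · rw [if_pos hij, if_pos (by rw [hij])]
    · rw [if_neg hij, if_neg (fun h' => hij (e.symm.injective h'))]
  have hev : ∀ (A : cSet s T × tSet s T → k) α, ev (reindex e (psi k A)) (c α) = A α := by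
    intro A α
    change psi k A (monomial α.1.1 1) (e.symm (e ⟨α.2.1, tSet_subset α.2.2⟩)) = _
    rw [e.symm_apply_apply, psi_monomial]
    unfold psiFun
    have h1 : α.1.1 ∉ bSet s T := by
      have h2 := mem_cSet.1 α.1.2
      rw [mem_bSet]
      rintro (h3 | h3)
      · omega
      · exact h2.2 h3.2
    rw [if_neg h1, dif_pos α.1.2, dif_pos α.2.2]
  obtain ⟨A, hA⟩ : ∃ A : cSet s T × tSet s T → k, eval A P ≠ 0 := by
    by_contra hcon
    push Not at hcon
    apply hP0
    apply MvPolynomial.funext
    intro x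
    rw [hcon x, map_zero]
  refine ⟨openSet b (rename c P), isOpen_openSet _ _, ⟨⟨famIdeal A, hpt A⟩,
    reindex e (psi k A), hframe A, hnormal A, ?_⟩, ?_⟩
  · rw [eval_rename]
    have h1 : ev (reindex e (psi k A)) ∘ c = A := funext (hev A)
    rwa [h1]
  · rintro I ⟨φ, hφ, hn, hne⟩ hdec
    apply hne
    rw [eval_rename]
    exact hP I.1 hdec I.2.2 φ hφ hn

end family

/-- The exponent `(i, j, l)`. -/
def expo (i j l : ℕ) : Fin 3 →₀ ℕ := Finsupp.equivFunOnFinite.symm ![i, j, l]

lemma degree_expo (i j l : ℕ) : (expo i j l).degree = i + j + l := by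
  rw [Finsupp.degree_eq_sum, Fin.sum_univ_three]
  rfl

lemma expo_inj {i j l i' j' l' : ℕ} (h : expo i j l = expo i' j' l') : i = i' ∧ j = j' :=
  ⟨DFunLike.congr_fun h 0, DFunLike.congr_fun h 1⟩

lemma le_card_tSet (a : ℕ) :
    a * a ≤ (tSet (n := 3) (4 * a) (fun m => m 0 < 2 * a)).card := by
  classical
  have h := Finset.card_le_card_of_injOn (s := (Finset.univ : Finset (Fin a × Fin a)))
    (t := tSet (n := 3) (4 * a) (fun m => m 0 < 2 * a))
    (fun x => expo x.1 x.2 (4 * a - x.1 - x.2)) (by
      intro x _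
      rw [Finset.mem_coe, mem_tSet, degree_expo]
      have h1 := x.1.2
      have h2 := x.2.2
      refine ⟨by omega, ?_⟩
      change (x.1 : ℕ) < 2 * a
      omega) (by
      intro x _ y _ hxy
      obtain ⟨h1, h2⟩ := expo_inj hxy
      exact Prod.ext (Fin.ext h1) (Fin.ext h2))
  simpa using h

lemma le_card_cSet (a : ℕ) :
    a * a ≤ (cSet (n := 3) (4 * a) (fun m => m 0 < 2 * a)).card := by
  classical
  have h := Finset.card_le_card_of_injOn (s := (Finset.univ : Finset (Fin a × Fin a)))
    (t := cSet (n := 3) (4 * a) (fun m => m 0 < 2 * a))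
    (fun x => expo (2 * a + x.1) x.2 (2 * a - x.1 - x.2)) (by
      intro x _
      rw [Finset.mem_coe, mem_cSet, degree_expo]
      have h1 := x.1.2
      have h2 := x.2.2
      refine ⟨by omega, ?_⟩
      change ¬ 2 * a + (x.1 : ℕ) < 2 * a
      omega) (by
      intro x _ y _ hxy
      obtain ⟨h1, h2⟩ := expo_inj hxy
      exact Prod.ext (Fin.ext (by omega)) (Fin.ext h2))
  simpa using h

/-- For each `R` there is a nonempty open set of ideals which are not intersections of pairwise
coprime ideals of colength at most `R`. -/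
theorem exists_open_three (k : Type*) [Field k] [Infinite k] (R : ℕ) :
    ∃ (r : ℕ) (W : Set (HilbPt k 3 r)), IsOpen W ∧ W.Nonempty ∧ ∀ I ∈ W, ¬ Dec R I.1 := by
  set K := 3 * (R * R) + R with hK
  set a := 125 * K + 1 with ha
  refine ⟨(bSet (n := 3) (4 * a) (fun m => m 0 < 2 * a)).card, exists_open ?_⟩
  have h1 := le_card_tSet a
  have h2 := le_card_cSet a
  have h3 : (bSet (n := 3) (4 * a) (fun m => m 0 < 2 * a)).card ≤ (4 * a + 1) ^ 3 := by
    exact (Finset.card_le_card bSet_subset).trans (card_box 3 (4 * a))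
  set r := (bSet (n := 3) (4 * a) (fun m => m 0 < 2 * a)).card with hr
  have h4 : Fintype.card (PIdx 3 r R) = r * K := by
    simp only [Fintype.card_prod, Fintype.card_fin, Fintype.card_sum, hK]
  rw [h4]
  have h5 : (4 * a + 1) ^ 3 ≤ 125 * (a * a * a) := by
    have h6 : 4 * a + 1 ≤ 5 * a := by omega
    calc (4 * a + 1) ^ 3 ≤ (5 * a) ^ 3 := Nat.pow_le_pow_left h6 3
      _ = 125 * (a * a * a) := by ring
  have ha0 : 0 < a * a * a := by positivity
  calc r * K ≤ 125 * (a * a * a) * K := Nat.mul_le_mul_right K (h3.trans h5)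
    _ = (a * a * a) * (125 * K) := by ring
    _ < (a * a * a) * a := by
        apply Nat.mul_lt_mul_of_pos_left _ ha0
        omega
    _ = (a * a) * (a * a) := by ring
    _ ≤ _ := Nat.mul_le_mul h2 h1

end

end Pool.Agent.V5helper89.Hilb
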