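import Pool.Agent.V5helper89.Hilb.Basic

/-!
# The Zariski topology of the Hilbert scheme in terms of frames
-/

set_option autoImplicit false

open MvPolynomial Topology

namespace Pool.Agent.V5helper89.Hilb

noncomputable section

universe u v

variable {k : Type u} [Field k] {n r : ℕ}

/-- The coordinates of a frame. -/
def ev {ι : Type*} (φ : MvPolynomial (Fin n) k →ₗ[k] (ι → k)) : (Fin n →₀ ℕ) × ι → k :=
  fun p => φ (monomial p.1 1) p.2

/-- `φ` is a frame of `I`: it is surjective with kernel `I`. -/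
def IsFrame {ι : Type*} (φ : MvPolynomial (Fin n) k →ₗ[k] (ι → k))
    (I : Ideal (MvPolynomial (Fin n) k)) : Prop :=
  Function.Surjective φ ∧ ∀ g, g ∈ I ↔ φ g = 0

lemma isOpen_of_frames (W : Set (HilbPt k n r))
    (h : ∀ I ∈ W, ∀ φ : MvPolynomial (Fin n) k →ₗ[k] (Fin r → k), IsFrame φ I.1 →
      ∃ G : MvPolynomial ((Fin n →₀ ℕ) × Fin r) k, eval (ev φ) G ≠ 0 ∧
        ∀ I' : HilbPt k n r, ∀ ψ : MvPolynomial (Fin n) k →ₗ[k] (Fin r → k), IsFrame ψ I'.1 →
          eval (ev ψ) G ≠ 0 → I' ∈ W) : IsOpen W := by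
  rw [isOpen_iff_family]
  intro F
  rw [isOpen_zariski_iff]
  intro t ht
  obtain ⟨G, hG, hG'⟩ := h (F.fibre t) ht (F.coord t) ⟨F.coord_surjective t, F.ker_coord t⟩
  set a : F.A := aeval (fun p : (Fin n →₀ ℕ) × Fin r =>
    F.basis.repr (Ideal.Quotient.mk F.J (monomial p.1 1)) p.2) G with ha
  have key : ∀ s : F.A →ₐ[k] k, s a = eval (ev (F.coord s)) G := by
    intro s
    have h0 : s.comp (aeval (fun p : (Fin n →₀ ℕ) × Fin r =>
        F.basis.repr (Ideal.Quotient.mk F.J (monomial p.1 1)) p.2)) =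
        aeval (ev (F.coord s)) := by
      ext p
      have h1 := F.coord_map s (monomial p.1 1) p.2
      rw [MvPolynomial.map_monomial, map_one] at h1
      rw [AlgHom.comp_apply, aeval_X, aeval_X]
      exact h1.symm
    have h2 := congrArg (fun f => f G) h0
    rw [ha]
    exact h2
  refine ⟨a, by rw [key]; exact hG, ?_⟩
  intro s hs
  rw [key] at hs
  exact hG' (F.fibre s) (F.coord s) ⟨F.coord_surjective s, F.ker_coord s⟩ hs

/-- A spanning family contains a basis. -/
lemma exists_minor {ι α : Type*} [Fintype ι] [DecidableEq ι] (v : α → (ι → k))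
    (hv : Submodule.span k (Set.range v) = ⊤) :
    ∃ b : ι → α, Matrix.det (Matrix.of fun i j => v (b i) j) ≠ 0 := by
  obtain ⟨κ, a, -, hspan, hli⟩ := exists_linearIndependent' k v
  have B : Module.Basis κ k (ι → k) := Module.Basis.mk hli (by rw [hspan, hv])
  set B : Module.Basis κ k (ι → k) := Module.Basis.mk hli (by rw [hspan, hv]) with hB
  let e : κ ≃ ι := B.indexEquiv (Pi.basisFun k ι)
  refine ⟨fun i => a (e.symm i), ?_⟩
  have h1 : LinearIndependent k (fun i => v (a (e.symm i))) :=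
    hli.comp _ e.symm.injective
  have h2 := (Matrix.linearIndependent_rows_iff_isUnit
    (A := Matrix.of fun i j => v (a (e.symm i)) j)).1 h1
  exact ((Matrix.isUnit_iff_isUnit_det _).1 h2).ne_zero

lemma span_frame {ι : Type*} (φ : MvPolynomial (Fin n) k →ₗ[k] (ι → k))
    (hφ : Function.Surjective φ) :
    Submodule.span k (Set.range fun m : Fin n →₀ ℕ => φ (monomial m 1)) = ⊤ := by
  have h1 : (Set.range fun m : Fin n →₀ ℕ => φ (monomial m 1)) =
      φ '' Set.range (MvPolynomial.basisMonomials (Fin n) k) := by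
    rw [← Set.range_comp, coe_basisMonomials]
    rfl
  rw [h1, Submodule.span_image, (MvPolynomial.basisMonomials (Fin n) k).span_eq, Submodule.map_top,
    LinearMap.range_eq_top.2 hφ]

/-- The determinant of the classes of the monomials `b i` -/
def detPoly {ι : Type*} [Fintype ι] [DecidableEq ι] (b : ι → (Fin n →₀ ℕ)) :
    MvPolynomial ((Fin n →₀ ℕ) × ι) k :=
  Matrix.det (Matrix.of fun i j => X (b i, j))

lemma eval_detPoly {ι : Type*} [Fintype ι] [DecidableEq ι] (b : ι → (Fin n →₀ ℕ))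
    (p : (Fin n →₀ ℕ) × ι → k) :
    eval p (detPoly b) = Matrix.det (Matrix.of fun i j => p (b i, j)) := by
  unfold detPoly
  rw [RingHom.map_det]
  congr 1
  ext i j
  simp

section universal

/-- The frames for which the monomials `b i` are a basis. -/
def Chart (k : Type u) [Field k] {n r : ℕ} (b : Fin r → (Fin n →₀ ℕ)) : Type u :=
  {ψ : MvPolynomial (Fin n) k →ₗ[k] (Fin r → k) //
    (∀ f g, ψ g = 0 → ψ (f * g) = 0) ∧ eval (ev ψ) (detPoly b) ≠ 0}

/-- The ring of regular functions of the chart. -/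
def chartRing (k : Type u) [Field k] {n r : ℕ} (b : Fin r → (Fin n →₀ ℕ)) :
    Subalgebra k (Chart k b → k) where
  carrier := {a | ∃ (N : ℕ) (G : MvPolynomial ((Fin n →₀ ℕ) × Fin r) k), ∀ ψ : Chart k b,
    (eval (ev ψ.1) (detPoly b)) ^ N * a ψ = eval (ev ψ.1) G}
  mul_mem' := by
    rintro a a' ⟨N, G, h⟩ ⟨N', G', h'⟩
    refine ⟨N + N', G * G', fun ψ => ?_⟩
    rw [map_mul, ← h, ← h', Pi.mul_apply, pow_add]
    ring
  add_mem' := by
    rintro a a' ⟨N, G, h⟩ ⟨N', G', h'⟩
    refine ⟨N + N', G * (detPoly b) ^ N' + G' * (detPoly b) ^ N, fun ψ => ?_⟩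
    rw [map_add, map_mul, map_mul, map_pow, map_pow, ← h, ← h', Pi.add_apply, pow_add]
    ring
  algebraMap_mem' := by
    intro c
    exact ⟨0, C c, fun ψ => by simp⟩

/-- The ring of regular functions of the chart, as a type. -/
def CR (k : Type u) [Field k] {n r : ℕ} (b : Fin r → (Fin n →₀ ℕ)) : Type u := chartRing k b

instance (b : Fin r → (Fin n →₀ ℕ)) : CommRing (CR k b) :=
  inferInstanceAs (CommRing (chartRing k b))

instance (b : Fin r → (Fin n →₀ ℕ)) : Algebra k (CR k b) :=
  inferInstanceAs (Algebra k (chartRing k b))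

variable (k) (b : Fin r → (Fin n →₀ ℕ))

/-- the coordinate functions -/
def chartCoord (p : (Fin n →₀ ℕ) × Fin r) : CR k b :=
  ⟨fun ψ => ev ψ.1 p, 0, X p, fun ψ => by simp⟩

variable {k} in
/-- evaluation -/
def chartEv {b : Fin r → (Fin n →₀ ℕ)} (ψ : Chart k b) : CR k b →ₐ[k] k :=
  (Pi.evalAlgHom k (fun _ : Chart k b => k) ψ).comp (chartRing k b).val

variable {k} in
lemma chartEv_apply {b : Fin r → (Fin n →₀ ℕ)} (ψ : Chart k b) (a : CR k b) :
    chartEv ψ a = a.1 ψ := rfl

variable {k} in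
lemma chart_ext {b : Fin r → (Fin n →₀ ℕ)} {a a' : CR k b}
    (h : ∀ ψ, chartEv ψ a = chartEv ψ a') : a = a' :=
  Subtype.ext (funext h)

/-- The universal quotient map. -/
def univMap : MvPolynomial (Fin n) (CR k b) →ₗ[CR k b] (Fin r → CR k b) :=
  (MvPolynomial.basisMonomials (Fin n) (CR k b)).constr (CR k b) fun m =>
    fun j => chartCoord k b (m, j)

lemma univMap_monomial (m : Fin n →₀ ℕ) (j : Fin r) :
    univMap k b (monomial m 1) j = chartCoord k b (m, j) := by
  have h := (MvPolynomial.basisMonomials (Fin n) (CR k b)).constr_basis (CR k b)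
    (fun m => fun j => chartCoord k b (m, j)) m
  rw [coe_basisMonomials] at h
  exact congrFun h j

variable {k} in
lemma chartEv_univMap (ψ : Chart k b) (f : MvPolynomial (Fin n) (CR k b)) (j : Fin r) :
    chartEv ψ (univMap k b f j) = ψ.1 (MvPolynomial.map (chartEv ψ : CR k b →+* k) f) j := by
  induction f using MvPolynomial.induction_on' with
  | monomial m a =>
    have h2 : (monomial m a : MvPolynomial (Fin n) (CR k b)) = a • (monomial m 1) := by
      rw [smul_monomial]
      simp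
    have h1 : (monomial m ((chartEv ψ : CR k b →+* k) a) : MvPolynomial (Fin n) k) =
        (chartEv ψ a) • (monomial m 1) := by
      rw [smul_monomial]
      simp
    rw [MvPolynomial.map_monomial, h1, h2, map_smul, map_smul, Pi.smul_apply, smul_eq_mul, map_mul,
      univMap_monomial]
    rfl
  | add f g hf hg =>
    rw [map_add, Pi.add_apply, map_add, hf, hg, map_add, map_add, Pi.add_apply]

/-- The universal ideal. -/
def univIdeal : Ideal (MvPolynomial (Fin n) (CR k b)) where
  carrier := {f | univMap k b f = 0}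
  add_mem' := by
    intro f g hf hg
    change univMap k b (f + g) = 0
    rw [map_add, show univMap k b f = 0 from hf, show univMap k b g = 0 from hg, add_zero]
  zero_mem' := map_zero _
  smul_mem' := by
    intro f g hg
    change univMap k b (f * g) = 0
    ext1 j
    refine chart_ext (k := k) (b := b) fun ψ => ?_
    have h1 : ψ.1 (MvPolynomial.map (chartEv ψ : CR k b →+* k) g) = 0 := by
      ext i
      rw [← chartEv_univMap, show univMap k b g = 0 from hg]
      simp
    rw [chartEv_univMap, map_mul, ψ.2.1 _ _ h1]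
    simp

lemma univMap_surjective : Function.Surjective (univMap k b) := by
  intro v
  set M : Matrix (Fin r) (Fin r) (CR k b) :=
    Matrix.of fun i j => chartCoord k b (b i, j) with hM
  have hdet : IsUnit M.det := by
    have hinv : (fun ψ : Chart k b => (eval (ev ψ.1) (detPoly b))⁻¹) ∈ chartRing k b := by
      refine ⟨1, 1, fun ψ => ?_⟩
      rw [pow_one, map_one, mul_inv_cancel₀ ψ.2.2]
    refine IsUnit.of_mul_eq_one ⟨_, hinv⟩ ?_
    refine chart_ext fun ψ => ?_
    rw [map_mul, map_one, AlgHom.map_det]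
    have h1 : (chartEv ψ).mapMatrix M = Matrix.of fun i j => ev ψ.1 (b i, j) := by
      ext i j
      rfl
    rw [h1, ← eval_detPoly]
    exact mul_inv_cancel₀ ψ.2.2
  set c := Matrix.vecMul v M⁻¹ with hc
  refine ⟨∑ i, c i • (monomial (b i) 1), ?_⟩
  rw [map_sum]
  ext1 j
  rw [Finset.sum_apply]
  have h2 : ∀ i, (univMap k b (c i • (monomial (b i) 1))) j = c i * M i j := by
    intro i
    rw [map_smul, Pi.smul_apply, univMap_monomial, smul_eq_mul]
    rfl
  rw [Finset.sum_congr rfl fun i _ => h2 i]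
  have h3 : Matrix.vecMul c M = v := by
    rw [hc, Matrix.vecMul_vecMul, Matrix.nonsing_inv_mul _ hdet, Matrix.vecMul_one]
  exact congrFun h3 j

/-- The quotient is free. -/
def univEquiv : (MvPolynomial (Fin n) (CR k b) ⧸ univIdeal k b) ≃ₗ[CR k b]
    (Fin r → CR k b) :=
  ((Submodule.Quotient.restrictScalarsEquiv (CR k b) (univIdeal k b)).symm.trans
    (Submodule.quotEquivOfEq _ (LinearMap.ker (univMap k b)) (by ext f; rfl))).trans
      ((univMap k b).quotKerEquivOfSurjective (univMap_surjective k b))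

lemma univEquiv_mk (f : MvPolynomial (Fin n) (CR k b)) :
    univEquiv k b (Ideal.Quotient.mk _ f) = univMap k b f := rfl

/-- The universal family over the chart. -/
def univFamily : Family k n r where
  A := CR k b
  J := univIdeal k b
  basis := Module.Basis.ofEquivFun (univEquiv k b)

variable {k b}

/-- A frame in the chart. -/
def toChart {I : Ideal (MvPolynomial (Fin n) k)} {ψ : MvPolynomial (Fin n) k →ₗ[k] (Fin r → k)}
    (hψ : IsFrame ψ I) (h : eval (ev ψ) (detPoly b) ≠ 0) : Chart k b :=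
  ⟨ψ, fun f _ hg => (hψ.2 _).1 (I.mul_mem_left f ((hψ.2 _).2 hg)), h⟩

lemma univFamily_fibre {I : HilbPt k n r} {ψ : MvPolynomial (Fin n) k →ₗ[k] (Fin r → k)}
    (hψ : IsFrame ψ I.1) (h : eval (ev ψ) (detPoly b) ≠ 0) :
    (univFamily k b).fibre (chartEv (toChart hψ h)) = I := by
  apply Subtype.ext
  have hc : (univFamily k b).coord (chartEv (toChart hψ h)) = ψ := by
    apply (MvPolynomial.basisMonomials (Fin n) k).ext
    intro m
    unfold Family.coord
    rw [Module.Basis.constr_basis]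
    ext j
    rw [coe_basisMonomials]
    have h1 : (univFamily k b).basis.repr
        (Ideal.Quotient.mk (univFamily k b).J (monomial m 1)) j = chartCoord k b (m, j) := by
      rw [← univMap_monomial]
      rfl
    rw [h1]
    rfl
  ext g
  have h1 := (univFamily k b).ker_coord (chartEv (toChart hψ h)) g
  rw [hc, ← hψ.2] at h1
  exact h1

end universal

lemma exists_poly_of_isOpen' {W : Set (HilbPt k n r)} (hW : IsOpen W) {I : HilbPt k n r}
    (hI : I ∈ W) {φ : MvPolynomial (Fin n) k →ₗ[k] (Fin r → k)} (hφ : IsFrame φ I.1) :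
    ∃ G : MvPolynomial ((Fin n →₀ ℕ) × Fin r) k, eval (ev φ) G ≠ 0 ∧
      ∀ I' : HilbPt k n r, ∀ ψ : MvPolynomial (Fin n) k →ₗ[k] (Fin r → k), IsFrame ψ I'.1 →
        eval (ev ψ) G ≠ 0 → I' ∈ W := by
  obtain ⟨b, hb⟩ := exists_minor _ (span_frame φ hφ.1)
  have hb' : eval (ev φ) (detPoly b) ≠ 0 := by
    rw [eval_detPoly]
    exact hb
  rw [isOpen_iff_family] at hW
  have h1 := hW (univFamily k b)
  rw [isOpen_zariski_iff] at h1
  obtain ⟨a, ha, ha'⟩ := h1 (chartEv (toChart hφ hb')) (by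
    rw [Set.mem_preimage, univFamily_fibre hφ hb']
    exact hI)
  obtain ⟨N, G, hG⟩ := a.2
  refine ⟨G * detPoly b, ?_, ?_⟩
  · rw [map_mul]
    refine mul_ne_zero ?_ hb'
    have h2 := hG (toChart hφ hb')
    have h3 : eval (ev φ) G = (eval (ev φ) (detPoly b)) ^ N * a.1 (toChart hφ hb') := h2.symm
    rw [h3]
    exact mul_ne_zero (pow_ne_zero _ hb') ha
  · intro I' ψ hψ h2
    rw [map_mul] at h2
    have hb2 := right_ne_zero_of_mul h2
    have h3 := ha' (chartEv (toChart hψ hb2)) (by
      intro h4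
      have h5 : eval (ev ψ) G = (eval (ev ψ) (detPoly b)) ^ N * a.1 (toChart hψ hb2) :=
        (hG (toChart hψ hb2)).symm
      have h6 : a.1 (toChart hψ hb2) = 0 := h4
      rw [h6, mul_zero] at h5
      exact left_ne_zero_of_mul h2 h5)
    rwa [Set.mem_preimage, univFamily_fibre hψ hb2] at h3

/-- Reindexing of a frame. -/
def reindex {ι ι' : Type*} (e : ι ≃ ι') (φ : MvPolynomial (Fin n) k →ₗ[k] (ι → k)) :
    MvPolynomial (Fin n) k →ₗ[k] (ι' → k) :=
  (LinearEquiv.funCongrLeft k k e.symm).toLinearMap.comp φ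

lemma isFrame_reindex {ι ι' : Type*} (e : ι ≃ ι') {φ : MvPolynomial (Fin n) k →ₗ[k] (ι → k)}
    {I : Ideal (MvPolynomial (Fin n) k)} (h : IsFrame φ I) : IsFrame (reindex e φ) I := by
  refine ⟨(LinearEquiv.funCongrLeft k k e.symm).surjective.comp h.1, fun g => ?_⟩
  rw [h.2]
  unfold reindex
  rw [LinearMap.comp_apply, LinearEquiv.coe_coe, LinearEquiv.map_eq_zero_iff]

lemma exists_poly_of_isOpen {ι : Type*} [Fintype ι] (hι : Fintype.card ι = r)
    {W : Set (HilbPt k n r)} (hW : IsOpen W) {I : HilbPt k n r}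
    (hI : I ∈ W) {φ : MvPolynomial (Fin n) k →ₗ[k] (ι → k)} (hφ : IsFrame φ I.1) :
    ∃ G : MvPolynomial ((Fin n →₀ ℕ) × ι) k, eval (ev φ) G ≠ 0 ∧
      ∀ I' : HilbPt k n r, ∀ ψ : MvPolynomial (Fin n) k →ₗ[k] (ι → k), IsFrame ψ I'.1 →
        eval (ev ψ) G ≠ 0 → I' ∈ W := by
  let e : ι ≃ Fin r := Fintype.equivFinOfCardEq hι
  obtain ⟨G, hG, hG'⟩ := exists_poly_of_isOpen' hW hI (isFrame_reindex e hφ)
  have key : ∀ ψ : MvPolynomial (Fin n) k →ₗ[k] (ι → k),
      eval (ev ψ) (rename (fun p : (Fin n →₀ ℕ) × Fin r => (p.1, e.symm p.2)) G) =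
        eval (ev (reindex e ψ)) G := by
    intro ψ
    rw [eval_rename]
    rfl
  refine ⟨rename (fun p : (Fin n →₀ ℕ) × Fin r => (p.1, e.symm p.2)) G, by rwa [key], ?_⟩
  intro I' ψ hψ h
  rw [key] at h
  exact hG' I' _ (isFrame_reindex e hψ) h

end

end Pool.Agent.V5helper89.Hilb
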