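import Pool.Agent.V5helper89.Hilb.Big

/-!
# Disjoint unions
-/

set_option autoImplicit false

open MvPolynomial Topology

namespace Pool.Agent.V5helper89.Hilb

noncomputable section

universe u

variable {k : Type u} [Field k] {n : ℕ}

/-- Every point has a frame. -/
lemma exists_frame {r : ℕ} (I : HilbPt k n r) :
    ∃ φ : MvPolynomial (Fin n) k →ₗ[k] (Fin r → k), IsFrame φ I.1 := by
  have := I.2.1
  let e : (MvPolynomial (Fin n) k ⧸ I.1) ≃ₗ[k] (Fin r → k) :=
    LinearEquiv.ofFinrankEq _ _ (by rw [I.2.2, Module.finrank_fin_fun])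
  refine ⟨e.toLinearMap.comp (Ideal.Quotient.mkₐ k I.1).toLinearMap, ?_, fun g => ?_⟩
  · exact e.surjective.comp Ideal.Quotient.mk_surjective
  · rw [← Ideal.Quotient.eq_zero_iff_mem, LinearMap.comp_apply, LinearEquiv.coe_coe,
      LinearEquiv.map_eq_zero_iff]
    rfl

/-- The direct sum of two frames. -/
def sumFrame {ι κ : Type*} (φ : MvPolynomial (Fin n) k →ₗ[k] (ι → k))
    (ψ : MvPolynomial (Fin n) k →ₗ[k] (κ → k)) : MvPolynomial (Fin n) k →ₗ[k] (ι ⊕ κ → k) :=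
  (LinearEquiv.sumArrowLequivProdArrow ι κ k k).symm.toLinearMap.comp (φ.prod ψ)

lemma sumFrame_inl {ι κ : Type*} (φ : MvPolynomial (Fin n) k →ₗ[k] (ι → k))
    (ψ : MvPolynomial (Fin n) k →ₗ[k] (κ → k)) (g : MvPolynomial (Fin n) k) (i : ι) :
    sumFrame φ ψ g (Sum.inl i) = φ g i := rfl

lemma sumFrame_inr {ι κ : Type*} (φ : MvPolynomial (Fin n) k →ₗ[k] (ι → k))
    (ψ : MvPolynomial (Fin n) k →ₗ[k] (κ → k)) (g : MvPolynomial (Fin n) k) (i : κ) :
    sumFrame φ ψ g (Sum.inr i) = ψ g i := rfl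

lemma sumFrame_eq_zero {ι κ : Type*} (φ : MvPolynomial (Fin n) k →ₗ[k] (ι → k))
    (ψ : MvPolynomial (Fin n) k →ₗ[k] (κ → k)) (g : MvPolynomial (Fin n) k) :
    sumFrame φ ψ g = 0 ↔ φ g = 0 ∧ ψ g = 0 := by
  constructor
  · intro h
    exact ⟨funext fun i => congrFun h (Sum.inl i), funext fun i => congrFun h (Sum.inr i)⟩
  · rintro ⟨h1, h2⟩
    funext i
    rcases i with i | i
    · exact congrFun h1 i
    · exact congrFun h2 i

lemma sumFrame_surjective_iff {ι κ : Type*} {φ : MvPolynomial (Fin n) k →ₗ[k] (ι → k)}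
    {ψ : MvPolynomial (Fin n) k →ₗ[k] (κ → k)} {I J : Ideal (MvPolynomial (Fin n) k)}
    (hφ : IsFrame φ I) (hψ : IsFrame ψ J) :
    Function.Surjective (sumFrame φ ψ) ↔ I ⊔ J = ⊤ := by
  constructor
  · intro h
    obtain ⟨g, hg⟩ := h (Sum.elim (φ 1) 0)
    rw [Ideal.eq_top_iff_one]
    have h1 : g ∈ J := by
      rw [hψ.2]
      funext i
      have := congrFun hg (Sum.inr i)
      exact this
    have h2 : 1 - g ∈ I := by
      rw [hφ.2, map_sub, sub_eq_zero]
      funext i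
      have := congrFun hg (Sum.inl i)
      exact this.symm
    have h3 : (1 : MvPolynomial (Fin n) k) = (1 - g) + g := by ring
    rw [h3]
    exact Submodule.add_mem_sup h2 h1
  · intro h v
    obtain ⟨x, hx⟩ := hφ.1 fun i => v (Sum.inl i)
    obtain ⟨y, hy⟩ := hψ.1 fun i => v (Sum.inr i)
    obtain ⟨a, ha, b, hb, hab⟩ := Submodule.mem_sup.1 ((Ideal.eq_top_iff_one _).1 h)
    refine ⟨b * x + a * y, ?_⟩
    have h1 : φ (b * x + a * y) = φ x := by
      rw [← sub_eq_zero, ← map_sub, ← hφ.2]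
      have : b * x + a * y - x = a * (y - x) := by linear_combination x * hab
      rw [this]
      exact I.mul_mem_right _ ha
    have h2 : ψ (b * x + a * y) = ψ y := by
      rw [← sub_eq_zero, ← map_sub, ← hψ.2]
      have : b * x + a * y - y = b * (x - y) := by linear_combination y * hab
      rw [this]
      exact J.mul_mem_right _ hb
    funext i
    rcases i with i | i
    · rw [sumFrame_inl, h1, hx]
    · rw [sumFrame_inr, h2, hy]

lemma isFrame_sumFrame {ι κ : Type*} {φ : MvPolynomial (Fin n) k →ₗ[k] (ι → k)}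
    {ψ : MvPolynomial (Fin n) k →ₗ[k] (κ → k)} {I J : Ideal (MvPolynomial (Fin n) k)}
    (hφ : IsFrame φ I) (hψ : IsFrame ψ J) (h : I ⊔ J = ⊤) : IsFrame (sumFrame φ ψ) (I ⊓ J) := by
  refine ⟨(sumFrame_surjective_iff hφ hψ).2 h, fun g => ?_⟩
  rw [sumFrame_eq_zero, Submodule.mem_inf, hφ.2, hψ.2]

/-- Adding a fixed disjoint subscheme is continuous. -/
lemma isOpen_glue {r r₁ r₂ : ℕ} (hr : r₁ + r₂ = r) (J : HilbPt k n r₂) {W : Set (HilbPt k n r)}
    (hW : IsOpen W) :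
    IsOpen {Y : HilbPt k n r₁ | Y.1 ⊔ J.1 = ⊤ ∧ ∃ Z ∈ W, Z.1 = Y.1 ⊓ J.1} := by
  classical
  obtain ⟨ψ, hψ⟩ := exists_frame J
  have hcard : Fintype.card (Fin r₁ ⊕ Fin r₂) = r := by
    rw [Fintype.card_sum, Fintype.card_fin, Fintype.card_fin, hr]
  -- the substitution
  let θ : MvPolynomial ((Fin n →₀ ℕ) × (Fin r₁ ⊕ Fin r₂)) k →ₐ[k]
      MvPolynomial ((Fin n →₀ ℕ) × Fin r₁) k :=
    aeval fun p => Sum.elim (fun i => X (p.1, i)) (fun i => C (ψ (monomial p.1 1) i)) p.2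
  have hθ : ∀ (φ : MvPolynomial (Fin n) k →ₗ[k] (Fin r₁ → k))
      (G : MvPolynomial ((Fin n →₀ ℕ) × (Fin r₁ ⊕ Fin r₂)) k),
      eval (ev φ) (θ G) = eval (ev (sumFrame φ ψ)) G := by
    intro φ G
    have h1 : (aeval (ev φ) : MvPolynomial ((Fin n →₀ ℕ) × Fin r₁) k →ₐ[k] k).comp θ =
        aeval (ev (sumFrame φ ψ)) := by
      apply MvPolynomial.algHom_ext
      rintro ⟨m, i | i⟩
      · rw [AlgHom.comp_apply, aeval_X, aeval_X, Sum.elim_inl, aeval_X]
        rfl
      · rw [AlgHom.comp_apply, aeval_X, aeval_X, Sum.elim_inr, aeval_C]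
        rfl
    have h2 := congrArg (fun f => f G) h1
    rw [← aeval_self, ← aeval_self]
    exact h2
  refine isOpen_of_frames _ ?_
  rintro Y ⟨hY, Z, hZ, hZY⟩ φ hφ
  have hfr : IsFrame (sumFrame φ ψ) Z.1 := by
    rw [hZY]
    exact isFrame_sumFrame hφ hψ hY
  obtain ⟨G, hG, hG'⟩ := exists_poly_of_isOpen hcard hW hZ hfr
  obtain ⟨b, hb⟩ := exists_minor _ (span_frame _ hfr.1)
  refine ⟨θ (G * detPoly b), ?_, ?_⟩
  · rw [hθ, map_mul, eval_detPoly]
    exact mul_ne_zero hG hb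
  · intro Y' φ' hφ' hne
    rw [hθ, map_mul, eval_detPoly] at hne
    have hsurj : Function.Surjective (sumFrame φ' ψ) := by
      intro v
      set B : Matrix (Fin r₁ ⊕ Fin r₂) (Fin r₁ ⊕ Fin r₂) k :=
        Matrix.of fun i j => ev (sumFrame φ' ψ) (b i, j) with hB
      have hdet : IsUnit B.det := isUnit_iff_ne_zero.2 (right_ne_zero_of_mul hne)
      refine ⟨∑ i, (Matrix.vecMul v B⁻¹) i • monomial (b i) 1, ?_⟩
      have h1 : sumFrame φ' ψ (∑ i, (Matrix.vecMul v B⁻¹) i • monomial (b i) 1) =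
          Matrix.vecMul (Matrix.vecMul v B⁻¹) B := by
        rw [map_sum]
        funext j
        rw [Finset.sum_apply]
        refine Finset.sum_congr rfl fun i _ => ?_
        rw [map_smul]
        rfl
      rw [h1, Matrix.vecMul_vecMul, Matrix.nonsing_inv_mul _ hdet, Matrix.vecMul_one]
    have hcop := (sumFrame_surjective_iff hφ' hψ).1 hsurj
    have hfr' := isFrame_sumFrame hφ' hψ hcop
    have hfin := finrank_of_ker _ hfr'.1 hfr'.2
    rw [hcard] at hfin
    exact ⟨hcop, ⟨Y'.1 ⊓ J.1, hfin⟩, hG' ⟨Y'.1 ⊓ J.1, hfin⟩ _ hfr' (left_ne_zero_of_mul hne), rfl⟩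

/-- A reducible zero-dimensional scheme is a disjoint union. -/
lemma exists_decomposition {I : Ideal (MvPolynomial (Fin n) k)}
    (hfin : Module.Finite k (MvPolynomial (Fin n) k ⧸ I)) (hI : I ≠ ⊤)
    (h : ¬ IrreducibleSpace (PrimeSpectrum (MvPolynomial (Fin n) k ⧸ I))) :
    ∃ I₁ I₂ : Ideal (MvPolynomial (Fin n) k), I₁ ≠ ⊤ ∧ I₂ ≠ ⊤ ∧ I₁ ⊔ I₂ = ⊤ ∧ I₁ ⊓ I₂ = I := by
  set Q := MvPolynomial (Fin n) k ⧸ I with hQ
  have : IsArtinianRing Q := IsArtinianRing.of_finite k Q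
  have hnt : Nontrivial Q := Ideal.Quotient.nontrivial_iff.2 hI
  obtain ⟨x, y, hxy⟩ : ∃ x y : PrimeSpectrum Q, x ≠ y := by
    by_contra hcon
    push Not at hcon
    apply h
    have : Subsingleton (PrimeSpectrum Q) := ⟨hcon⟩
    exact { isPreirreducible_univ := Set.subsingleton_univ.isPreirreducible
            toNonempty := inferInstance }
  obtain ⟨e, he, hex⟩ := PrimeSpectrum.exists_idempotent_basicOpen_eq_of_isClopen
    (isClopen_discrete ({x} : Set (PrimeSpectrum Q)))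
  obtain ⟨f, rfl⟩ := Ideal.Quotient.mk_surjective e
  have hxe : Ideal.Quotient.mk I f ∉ x.asIdeal := by
    have : x ∈ ({x} : Set (PrimeSpectrum Q)) := rfl
    rw [hex] at this
    exact this
  have hye : Ideal.Quotient.mk I f ∈ y.asIdeal := by
    by_contra hcon
    have : y ∈ ({x} : Set (PrimeSpectrum Q)) := by
      rw [hex]
      exact hcon
    exact hxy this.symm
  have hff : f * f - f ∈ I := by
    rw [← Ideal.Quotient.eq, map_mul]
    exact he
  refine ⟨I ⊔ Ideal.span {f}, I ⊔ Ideal.span {1 - f}, ?_, ?_, ?_, ?_⟩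
  · intro htop
    have h1 : (1 : MvPolynomial (Fin n) k) ∈ I ⊔ Ideal.span {f} := by rw [htop]; trivial
    obtain ⟨a, ha, b, hb, hab⟩ := Submodule.mem_sup.1 h1
    obtain ⟨c, rfl⟩ := Ideal.mem_span_singleton'.1 hb
    have h2 : (1 : Q) = Ideal.Quotient.mk I c * Ideal.Quotient.mk I f := by
      rw [← map_mul, ← map_one (Ideal.Quotient.mk I), ← hab, map_add,
        Ideal.Quotient.eq_zero_iff_mem.2 ha, zero_add]
    exact y.2.ne_top ((Ideal.eq_top_iff_one _).2 (h2 ▸ y.asIdeal.mul_mem_left _ hye))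
  · intro htop
    have h1 : (1 : MvPolynomial (Fin n) k) ∈ I ⊔ Ideal.span {1 - f} := by rw [htop]; trivial
    obtain ⟨a, ha, b, hb, hab⟩ := Submodule.mem_sup.1 h1
    obtain ⟨c, rfl⟩ := Ideal.mem_span_singleton'.1 hb
    have h2 : Ideal.Quotient.mk I c * (1 - Ideal.Quotient.mk I f) = 1 := by
      have h5 := congrArg (Ideal.Quotient.mk I) hab
      rw [map_add, Ideal.Quotient.eq_zero_iff_mem.2 ha, zero_add, map_mul, map_sub, map_one] at h5
      exact h5
    have h3 : Ideal.Quotient.mk I f = 0 := by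
      have h4 : (1 - Ideal.Quotient.mk I f) * Ideal.Quotient.mk I f = 0 := by
        rw [sub_mul, one_mul, he.eq, sub_self]
      calc Ideal.Quotient.mk I f = 1 * Ideal.Quotient.mk I f := (one_mul _).symm
        _ = Ideal.Quotient.mk I c * ((1 - Ideal.Quotient.mk I f) * Ideal.Quotient.mk I f) := by
            rw [← h2, mul_assoc, h2]
        _ = 0 := by rw [h4, mul_zero]
    exact hxe (h3 ▸ x.asIdeal.zero_mem)
  · rw [Ideal.eq_top_iff_one]
    have h1 : f + (1 - f) = (1 : MvPolynomial (Fin n) k) := by ring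
    have h2 := Submodule.add_mem_sup
      (S := I ⊔ Ideal.span {f}) (T := I ⊔ Ideal.span {1 - f})
      (Ideal.mem_sup_right (Ideal.mem_span_singleton_self f))
      (Ideal.mem_sup_right (Ideal.mem_span_singleton_self (1 - f)))
    rwa [h1] at h2
  · refine le_antisymm ?_ (le_inf le_sup_left le_sup_left)
    rintro g ⟨hg1, hg2⟩
    obtain ⟨a, ha, b, hb, hab⟩ := Submodule.mem_sup.1 hg1
    obtain ⟨c, rfl⟩ := Ideal.mem_span_singleton'.1 hb
    obtain ⟨a', ha', b', hb', hab'⟩ := Submodule.mem_sup.1 hg2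
    obtain ⟨c', rfl⟩ := Ideal.mem_span_singleton'.1 hb'
    have h1 : g = (1 - f) * a - c * (f * f - f) + (f * a' - c' * (f * f - f)) := by
      linear_combination (-(1 - f)) * hab - f * hab'
    rw [h1]
    exact I.add_mem (I.sub_mem (I.mul_mem_left _ ha) (I.mul_mem_left _ hff))
      (I.sub_mem (I.mul_mem_left _ ha') (I.mul_mem_left _ hff))

/-- Passing to an open set of irreducible subschemes. -/
theorem exists_irreducible_open (R : ℕ) : ∀ (r : ℕ) (W : Set (HilbPt k n r)), IsOpen W →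
    W.Nonempty → (∀ I ∈ W, ¬ Dec R I.1) →
    ∃ (r' : ℕ) (W' : Set (HilbPt k n r')), IsOpen W' ∧ W'.Nonempty ∧ (∀ I ∈ W', ¬ Dec R I.1) ∧
      ∀ I ∈ W', IrreducibleSpace (PrimeSpectrum (MvPolynomial (Fin n) k ⧸ I.1)) := by
  intro r
  induction r using Nat.strong_induction_on with
  | _ r ih =>
    intro W hW hne hdec
    by_cases hirr : ∀ I ∈ W, IrreducibleSpace (PrimeSpectrum (MvPolynomial (Fin n) k ⧸ I.1))
    · exact ⟨r, W, hW, hne, hdec, hirr⟩
    · push Not at hirr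
      obtain ⟨I, hI, hred⟩ := hirr
      have hfin := I.2.1
      have hItop : I.1 ≠ ⊤ := by
        intro htop
        apply hdec I hI
        refine Dec.small _ hfin ?_
        have : Subsingleton (MvPolynomial (Fin n) k ⧸ I.1) :=
          Ideal.Quotient.subsingleton_iff.2 htop
        rw [Module.finrank_zero_of_subsingleton]
        exact Nat.zero_le _
      obtain ⟨I₁, I₂, h1, h2, hsup, hinf⟩ := exists_decomposition hfin hItop hred
      have hle1 : I.1 ≤ I₁ := hinf ▸ inf_le_left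
      have hle2 : I.1 ≤ I₂ := hinf ▸ inf_le_right
      have hf1 : Module.Finite k (MvPolynomial (Fin n) k ⧸ I₁) :=
        Module.Finite.of_surjective (Ideal.Quotient.factorₐ k hle1).toLinearMap
          (Ideal.Quotient.factor_surjective hle1)
      have hf2 : Module.Finite k (MvPolynomial (Fin n) k ⧸ I₂) :=
        Module.Finite.of_surjective (Ideal.Quotient.factorₐ k hle2).toLinearMap
          (Ideal.Quotient.factor_surjective hle2)
      have hsum := (finrank_inf hsup hf1 hf2).2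
      rw [hinf, I.2.2] at hsum
      have hpos1 : 0 < Module.finrank k (MvPolynomial (Fin n) k ⧸ I₁) := by
        have : Nontrivial (MvPolynomial (Fin n) k ⧸ I₁) := Ideal.Quotient.nontrivial_iff.2 h1
        exact Module.finrank_pos
      have hpos2 : 0 < Module.finrank k (MvPolynomial (Fin n) k ⧸ I₂) := by
        have : Nontrivial (MvPolynomial (Fin n) k ⧸ I₂) := Ideal.Quotient.nontrivial_iff.2 h2
        exact Module.finrank_pos
      let J₁ : HilbPt k n (Module.finrank k (MvPolynomial (Fin n) k ⧸ I₁)) := ⟨I₁, hf1, rfl⟩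
      let J₂ : HilbPt k n (Module.finrank k (MvPolynomial (Fin n) k ⧸ I₂)) := ⟨I₂, hf2, rfl⟩
      have hopen := isOpen_glue (hsum.symm) J₂ hW
      by_cases hA : ∀ Y ∈ {Y : HilbPt k n (Module.finrank k (MvPolynomial (Fin n) k ⧸ I₁)) |
          Y.1 ⊔ J₂.1 = ⊤ ∧ ∃ Z ∈ W, Z.1 = Y.1 ⊓ J₂.1}, ¬ Dec R Y.1
      · exact ih _ (by omega) _ hopen ⟨J₁, hsup, I, hI, hinf.symm⟩ hA
      · push Not at hA
        obtain ⟨Y₁, ⟨hY1, Z, hZ, hZY⟩, hYdec⟩ := hA
        have hopen' := isOpen_glue ((add_comm _ _).trans hsum.symm) Y₁ hW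
        by_cases hB : ∀ Y ∈ {Y : HilbPt k n (Module.finrank k (MvPolynomial (Fin n) k ⧸ I₂)) |
            Y.1 ⊔ Y₁.1 = ⊤ ∧ ∃ Z ∈ W, Z.1 = Y.1 ⊓ Y₁.1}, ¬ Dec R Y.1
        · exact ih _ (by omega) _ hopen' ⟨J₂, by rw [sup_comm]; exact hY1, Z, hZ,
            by rw [inf_comm]; exact hZY⟩ hB
        · push Not at hB
          obtain ⟨Y₂, ⟨hY2, Z', hZ', hZY'⟩, hYdec2⟩ := hB
          refine absurd ?_ (hdec Z' hZ')
          rw [hZY']
          exact Dec.inter _ _ hYdec2 hYdec hY2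

end

end Pool.Agent.V5helper89.Hilb
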