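import Pool.Agent.V5helper89.Hilb.Frame

/-!
# Ideals with small local components depend on few parameters
-/

set_option autoImplicit false

open MvPolynomial Topology

namespace Pool.Agent.V5helper89.Hilb

noncomputable section

universe u v

variable {k : Type u} [Field k] {n r : ℕ}

lemma aeval_self {σ : Type*} (f : σ → k) (p : MvPolynomial σ k) : aeval f p = eval f p := by
  rw [← coe_aeval_eq_eval]
  rfl

/-- Clearing denominators. -/
lemma exists_clear {Q : Type u} [CommRing Q] [Algebra k Q] {Λ : Type*} (δ : Q) (d : Λ → Q)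
    (P : MvPolynomial Λ k) :
    ∃ (N : ℕ) (G : Q), ∀ (K : Type u) [Field K] [Algebra k K] (θ : Q →ₐ[k] K), θ δ ≠ 0 →
      θ G = θ δ ^ N * aeval (fun α => θ (d α) / θ δ) P := by
  induction P using MvPolynomial.induction_on with
  | C a =>
    refine ⟨0, algebraMap k Q a, fun K _ _ θ _ => ?_⟩
    rw [AlgHom.commutes, pow_zero, one_mul]
    rw [MvPolynomial.aeval_C]
  | add p q hp hq =>
    obtain ⟨N, G, h⟩ := hp
    obtain ⟨N', G', h'⟩ := hq
    refine ⟨N + N', G * δ ^ N' + G' * δ ^ N, fun K _ _ θ hθ => ?_⟩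
    rw [map_add, map_mul, map_mul, map_pow, map_pow, h K θ hθ, h' K θ hθ, map_add, pow_add]
    ring
  | mul_X p α hp =>
    obtain ⟨N, G, h⟩ := hp
    refine ⟨N + 1, G * d α, fun K _ _ θ hθ => ?_⟩
    rw [map_mul, h K θ hθ, map_mul, aeval_X, pow_succ]
    field_simp

/-- `φ` maps the monomials `b i` to the standard basis -/
def IsNormal (b : Fin r → (Fin n →₀ ℕ)) (φ : MvPolynomial (Fin n) k →ₗ[k] (Fin r → k)) : Prop :=
  ∀ i, φ (monomial (b i) 1) = Pi.single i 1

/-- The matrix of the classes of the monomials `b i`. -/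
def frameMat (b : Fin r → (Fin n →₀ ℕ)) (ψ : MvPolynomial (Fin n) k →ₗ[k] (Fin r → k)) :
    Matrix (Fin r) (Fin r) k :=
  Matrix.of fun i j => ψ (monomial (b i) 1) j

lemma det_frameMat (b : Fin r → (Fin n →₀ ℕ)) (ψ : MvPolynomial (Fin n) k →ₗ[k] (Fin r → k)) :
    (frameMat b ψ).det = eval (ev ψ) (detPoly b) := by
  rw [eval_detPoly]
  rfl

/-- The normalised frame. -/
def normalise (b : Fin r → (Fin n →₀ ℕ)) (ψ : MvPolynomial (Fin n) k →ₗ[k] (Fin r → k)) :
    MvPolynomial (Fin n) k →ₗ[k] (Fin r → k) :=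
  (Matrix.vecMulLinear (frameMat b ψ)⁻¹).comp ψ

lemma normalise_apply (b : Fin r → (Fin n →₀ ℕ))
    (ψ : MvPolynomial (Fin n) k →ₗ[k] (Fin r → k)) (g : MvPolynomial (Fin n) k) :
    normalise b ψ g = Matrix.vecMul (ψ g) (frameMat b ψ)⁻¹ := rfl

lemma isNormal_normalise {b : Fin r → (Fin n →₀ ℕ)}
    {ψ : MvPolynomial (Fin n) k →ₗ[k] (Fin r → k)} (h : eval (ev ψ) (detPoly b) ≠ 0) :
    IsNormal b (normalise b ψ) := by
  intro i
  have hdet : IsUnit (frameMat b ψ).det := by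
    rw [det_frameMat]
    exact isUnit_iff_ne_zero.2 h
  rw [normalise_apply]
  have h1 : ψ (monomial (b i) 1) = Matrix.vecMul (Pi.single i 1) (frameMat b ψ) := by
    rw [Matrix.single_one_vecMul]
    rfl
  rw [h1, Matrix.vecMul_vecMul, Matrix.mul_nonsing_inv _ hdet, Matrix.vecMul_one]

lemma isFrame_normalise {b : Fin r → (Fin n →₀ ℕ)}
    {ψ : MvPolynomial (Fin n) k →ₗ[k] (Fin r → k)} {I : Ideal (MvPolynomial (Fin n) k)}
    (hψ : IsFrame ψ I) (h : eval (ev ψ) (detPoly b) ≠ 0) : IsFrame (normalise b ψ) I := by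
  have hdet : IsUnit (frameMat b ψ).det := by
    rw [det_frameMat]
    exact isUnit_iff_ne_zero.2 h
  constructor
  · intro v
    obtain ⟨g, hg⟩ := hψ.1 (Matrix.vecMul v (frameMat b ψ))
    refine ⟨g, ?_⟩
    rw [normalise_apply, hg, Matrix.vecMul_vecMul, Matrix.mul_nonsing_inv _ hdet, Matrix.vecMul_one]
  · intro g
    rw [hψ.2, normalise_apply]
    constructor
    · intro h0
      rw [h0, Matrix.zero_vecMul]
    · intro h0
      have h1 : Matrix.vecMul (Matrix.vecMul (ψ g) (frameMat b ψ)⁻¹) (frameMat b ψ) = ψ g := by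
        rw [Matrix.vecMul_vecMul, Matrix.nonsing_inv_mul _ hdet, Matrix.vecMul_one]
      rw [← h1, h0, Matrix.zero_vecMul]

/-- Two maps with the same kernel, one of them a normalised frame. -/
lemma eq_sum_of_normal {V : Type*} [AddCommGroup V] [Module k V] {b : Fin r → (Fin n →₀ ℕ)}
    {φ : MvPolynomial (Fin n) k →ₗ[k] (Fin r → k)} (hn : IsNormal b φ)
    (ψ : MvPolynomial (Fin n) k →ₗ[k] V) (h : ∀ g, φ g = 0 → ψ g = 0)
    (g : MvPolynomial (Fin n) k) : ψ g = ∑ i, φ g i • ψ (monomial (b i) 1) := by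
  have h1 : φ (g - ∑ i, φ g i • (monomial (b i) 1)) = 0 := by
    rw [map_sub, map_sum, sub_eq_zero]
    ext j
    rw [Finset.sum_apply]
    rw [Finset.sum_eq_single j]
    · rw [map_smul, hn j]
      simp
    · intro i _ hij
      rw [map_smul, hn i]
      simp [hij.symm]
    · intro hj
      exact absurd (Finset.mem_univ _) hj
  have h2 := h _ h1
  rw [map_sub, map_sum, sub_eq_zero] at h2
  rw [h2]
  exact Finset.sum_congr rfl fun i _ => map_smul _ _ _

lemma normalise_eq {b : Fin r → (Fin n →₀ ℕ)} {I : Ideal (MvPolynomial (Fin n) k)}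
    {φ ψ : MvPolynomial (Fin n) k →ₗ[k] (Fin r → k)} (hφ : IsFrame φ I) (hn : IsNormal b φ)
    (hψ : IsFrame ψ I) : eval (ev ψ) (detPoly b) ≠ 0 ∧ normalise b ψ = φ := by
  have h1 : ∀ g, ψ g = Matrix.vecMul (φ g) (frameMat b ψ) := by
    intro g
    rw [eq_sum_of_normal hn ψ (fun g hg => (hψ.2 g).1 ((hφ.2 g).2 hg)) g]
    ext j
    rw [Finset.sum_apply]
    rfl
  have hdet : IsUnit (frameMat b ψ).det := by
    rw [← Matrix.isUnit_iff_isUnit_det, ← Matrix.vecMul_surjective_iff_isUnit]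
    intro v
    obtain ⟨g, hg⟩ := hψ.1 v
    exact ⟨φ g, by rw [← hg, h1]⟩
  refine ⟨by rw [← det_frameMat]; exact hdet.ne_zero, ?_⟩
  apply LinearMap.ext
  intro g
  rw [normalise_apply, h1, Matrix.vecMul_vecMul, Matrix.mul_nonsing_inv _ hdet, Matrix.vecMul_one]

/-- Cramer's rule -/
def cramPoly (b : Fin r → (Fin n →₀ ℕ)) (p : (Fin n →₀ ℕ) × Fin r) :
    MvPolynomial ((Fin n →₀ ℕ) × Fin r) k :=
  ∑ l, X (p.1, l) * (Matrix.of fun i j => X (b i, j) :
    Matrix (Fin r) (Fin r) (MvPolynomial ((Fin n →₀ ℕ) × Fin r) k)).adjugate l p.2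

lemma ev_normalise (b : Fin r → (Fin n →₀ ℕ)) (ψ : MvPolynomial (Fin n) k →ₗ[k] (Fin r → k))
    (p : (Fin n →₀ ℕ) × Fin r) :
    ev (normalise b ψ) p = eval (ev ψ) (cramPoly b p) / eval (ev ψ) (detPoly b) := by
  unfold ev
  rw [normalise_apply, Matrix.inv_def, det_frameMat, Ring.inverse_eq_inv', div_eq_inv_mul]
  rw [Matrix.vecMul_smul, Pi.smul_apply, smul_eq_mul]
  congr 1
  unfold cramPoly
  rw [map_sum]
  unfold Matrix.vecMul dotProduct
  refine Finset.sum_congr rfl fun l _ => ?_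
  rw [map_mul, eval_X]
  congr 1
  have h1 : (eval (ev ψ)).mapMatrix (Matrix.of fun i j => X (b i, j) :
      Matrix (Fin r) (Fin r) (MvPolynomial ((Fin n →₀ ℕ) × Fin r) k)) = frameMat b ψ := by
    ext i j
    simp [frameMat, ev]
  rw [← h1, ← RingHom.map_adjugate]
  rfl

/-- The set of the ideals which have a normalised frame whose coordinates do not satisfy the
equation `P`. -/
def openSet (b : Fin r → (Fin n →₀ ℕ)) (P : MvPolynomial ((Fin n →₀ ℕ) × Fin r) k) :
    Set (HilbPt k n r) :=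
  {I | ∃ φ : MvPolynomial (Fin n) k →ₗ[k] (Fin r → k), IsFrame φ I.1 ∧ IsNormal b φ ∧
    eval (ev φ) P ≠ 0}

lemma isOpen_openSet (b : Fin r → (Fin n →₀ ℕ)) (P : MvPolynomial ((Fin n →₀ ℕ) × Fin r) k) :
    IsOpen (openSet b P) := by
  obtain ⟨N, G, hG⟩ := exists_clear (Q := MvPolynomial ((Fin n →₀ ℕ) × Fin r) k)
    (detPoly b) (cramPoly b) P
  have key : ∀ ψ : MvPolynomial (Fin n) k →ₗ[k] (Fin r → k), eval (ev ψ) (detPoly b) ≠ 0 →
      eval (ev ψ) G = eval (ev ψ) (detPoly b) ^ N * eval (ev (normalise b ψ)) P := by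
    intro ψ hψ
    have h1 := hG k (aeval (ev ψ)) (by rw [aeval_self]; exact hψ)
    rw [aeval_self, aeval_self, aeval_self] at h1
    have h2 : (fun α => (aeval (ev ψ) (cramPoly (k := k) b α) : k) / eval (ev ψ) (detPoly b)) =
        ev (normalise b ψ) := by
      funext p
      rw [ev_normalise, aeval_self]
    rw [h1, h2]
  refine isOpen_of_frames _ ?_
  rintro I ⟨φ, hφ, hn, hP⟩ ψ hψ
  obtain ⟨h1, h2⟩ := normalise_eq hφ hn hψ
  refine ⟨G * detPoly b, ?_, ?_⟩
  · rw [map_mul, key ψ h1, h2]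
    exact mul_ne_zero (mul_ne_zero (pow_ne_zero _ h1) hP) h1
  · intro I' ψ' hψ' h3
    rw [map_mul] at h3
    have h4 := right_ne_zero_of_mul h3
    have h5 := left_ne_zero_of_mul h3
    rw [key ψ' h4] at h5
    exact ⟨normalise b ψ', isFrame_normalise hψ' h4, isNormal_normalise h4,
      right_ne_zero_of_mul h5⟩

end

end Pool.Agent.V5helper89.Hilb
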