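import Pool.Agent.V5helper89.Hilb.Small

/-!
# Ideals with small local components satisfy an equation
-/

set_option autoImplicit false

open MvPolynomial Topology

namespace Pool.Agent.V5helper89.Hilb

noncomputable section

universe u v

variable {k : Type u} [Field k] {n r R : ℕ}

lemma exists_dependence {E Λ : Type} [Fintype E] [Fintype Λ]
    (hcard : Fintype.card E < Fintype.card Λ) (δ : MvPolynomial E k) (d : Λ → MvPolynomial E k) :
    ∃ P : MvPolynomial Λ k, P ≠ 0 ∧ ∀ p : E → k, eval p δ ≠ 0 →
      eval (fun α => eval p (d α) / eval p δ) P = 0 := by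
  classical
  set K := FractionRing (MvPolynomial E k) with hK
  set g : Λ → K := fun α => algebraMap _ K (d α) / algebraMap _ K δ with hg
  have hni : ¬ AlgebraicIndependent k g := by
    intro hind
    have h1 := hind.lift_cardinalMk_le_trdeg
    have h2 : Algebra.trdeg k (MvPolynomial E k) = Cardinal.lift.{u} (Cardinal.mk E) :=
      MvPolynomial.trdeg_of_isDomain
    have h3 : Algebra.trdeg k (MvPolynomial E k) + Algebra.trdeg (MvPolynomial E k) K =
        Algebra.trdeg k K := trdeg_add_eq k (MvPolynomial E k)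
    have h4 : Algebra.trdeg (MvPolynomial E k) K = 0 := by
      have : Algebra.IsAlgebraic (MvPolynomial E k) K :=
        IsLocalization.isAlgebraic _ (nonZeroDivisors (MvPolynomial E k))
      exact trdeg_eq_zero
    rw [← h3, h4, add_zero, h2] at h1
    simp only [Cardinal.mk_fintype, Cardinal.lift_natCast, Nat.cast_le] at h1
    omega
  rw [algebraicIndependent_iff_injective_aeval, injective_iff_map_eq_zero] at hni
  push Not at hni
  obtain ⟨P, hP, hP0⟩ := hni
  refine ⟨P, hP0, fun p hp => ?_⟩
  obtain ⟨N, G, hG⟩ := exists_clear (Q := MvPolynomial E k) δ d P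
  have hδ : δ ≠ 0 := by
    rintro rfl
    exact hp (map_zero _)
  have hinj : Function.Injective (algebraMap (MvPolynomial E k) K) :=
    IsFractionRing.injective _ _
  have h1 := hG K (IsScalarTower.toAlgHom k (MvPolynomial E k) K) (by
    intro h0
    exact hδ (hinj (by rw [map_zero]; exact h0)))
  have h2 : algebraMap (MvPolynomial E k) K G = 0 := by
    have h3 : (aeval fun α => (IsScalarTower.toAlgHom k (MvPolynomial E k) K) (d α) /
        (IsScalarTower.toAlgHom k (MvPolynomial E k) K) δ) P = 0 := hP
    rw [h3, mul_zero] at h1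
    exact h1
  have h3 : G = 0 := hinj (by rw [map_zero]; exact h2)
  have h4 := hG k (aeval p) (by rw [aeval_self]; exact hp)
  rw [h3, map_zero, aeval_self, aeval_self] at h4
  have h5 := (mul_eq_zero.1 h4.symm).resolve_left (pow_ne_zero _ hp)
  have h6 : (fun α => (aeval p (d α) : k) / eval p δ) = fun α => eval p (d α) / eval p δ := by
    funext α
    rw [aeval_self]
  rw [← h6]
  exact h5

/-- The minor of the parameters. -/
def minorMat (b : Fin r → (Fin n →₀ ℕ)) (τ : Fin r → Fin r × Fin R) :
    Matrix (Fin r) (Fin r) (MvPolynomial (PIdx n r R) k) :=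
  Matrix.of fun i j => pCoord (A := MvPolynomial (PIdx n r R) k) X (b i) (τ j)

/-- Cramer's rule for the parameters. -/
def minorCram (b : Fin r → (Fin n →₀ ℕ)) (τ : Fin r → Fin r × Fin R) (q : (Fin n →₀ ℕ) × Fin r) :
    MvPolynomial (PIdx n r R) k :=
  ∑ l, pCoord (A := MvPolynomial (PIdx n r R) k) X q.1 (τ l) * (minorMat b τ).adjugate l q.2

lemma eval_pCoord (p : PIdx n r R → k) (m : Fin n →₀ ℕ) (x : Fin r × Fin R) :
    eval p (pCoord (A := MvPolynomial (PIdx n r R) k) X m x) = pCoord p m x := by
  rw [map_pCoord]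
  simp only [eval_X]

/-- The ideals with small local components satisfy an equation. -/
theorem exists_relation (b : Fin r → (Fin n →₀ ℕ)) {Λ : Type} [Fintype Λ]
    (c : Λ → (Fin n →₀ ℕ) × Fin r) (hcard : Fintype.card (PIdx n r R) < Fintype.card Λ) :
    ∃ P : MvPolynomial Λ k, P ≠ 0 ∧ ∀ I : Ideal (MvPolynomial (Fin n) k), Dec R I →
      Module.finrank k (MvPolynomial (Fin n) k ⧸ I) = r →
        ∀ φ : MvPolynomial (Fin n) k →ₗ[k] (Fin r → k), IsFrame φ I → IsNormal b φ →
          eval (fun α => ev φ (c α)) P = 0 := by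
  classical
  choose P hP hP' using fun τ : Fin r → Fin r × Fin R =>
    exists_dependence (k := k) hcard (minorMat b τ).det (fun α => minorCram b τ (c α))
  refine ⟨∏ τ, P τ, Finset.prod_ne_zero_iff.2 fun τ _ => hP τ, ?_⟩
  intro I hI hr φ hφ hn
  obtain ⟨p, Φ, hΦ, hΦI⟩ := exists_params hI hr
  have hsum : ∀ g, Φ g = ∑ i, φ g i • Φ (monomial (b i) 1) :=
    eq_sum_of_normal hn Φ (fun g hg => (hΦI g).1 ((hφ.2 g).2 hg))
  set M : Matrix (Fin r) (Fin r × Fin R) k := Matrix.of fun i x => Φ (monomial (b i) 1) x with hM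
  have hli : LinearIndependent k M.row := by
    rw [Fintype.linearIndependent_iff]
    intro c hc i
    have h1 : Φ (∑ i, c i • monomial (b i) 1) = 0 := by
      rw [map_sum, ← hc]
      refine Finset.sum_congr rfl fun i _ => ?_
      rw [map_smul]
      rfl
    have h2 := (hφ.2 _).1 ((hΦI _).2 h1)
    rw [map_sum] at h2
    have h3 := congrFun h2 i
    rw [Finset.sum_apply, Finset.sum_eq_single i] at h3
    · rw [map_smul, hn i] at h3
      simpa using h3
    · intro j _ hij
      rw [map_smul, hn j]
      simp [hij.symm]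
    · intro hj
      exact absurd (Finset.mem_univ _) hj
  have hspan : Submodule.span k (Set.range fun x : Fin r × Fin R => fun i => M i x) = ⊤ := by
    apply Submodule.eq_top_of_finrank_eq
    have h1 := hli.rank_matrix
    rw [Matrix.rank_eq_finrank_span_cols] at h1
    rw [Module.finrank_fin_fun]
    rw [Fintype.card_fin] at h1
    exact h1
  obtain ⟨τ, hτ⟩ := exists_minor _ hspan
  have hdet : (Matrix.of fun i j => M i (τ j)).det ≠ 0 := by
    rw [← Matrix.det_transpose]
    exact hτ
  set B : Matrix (Fin r) (Fin r) k := Matrix.of fun i j => M i (τ j) with hB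
  have hBe : (eval p).mapMatrix (minorMat (k := k) b τ) = B := by
    ext i j
    change eval p (pCoord (A := MvPolynomial (PIdx n r R) k) X (b i) (τ j)) = _
    rw [eval_pCoord, ← hΦ]
    rfl
  have hdet' : eval p (minorMat (k := k) b τ).det = B.det := by
    rw [RingHom.map_det, hBe]
  have hcram : ∀ q : (Fin n →₀ ℕ) × Fin r,
      eval p (minorCram (k := k) b τ q) / eval p (minorMat (k := k) b τ).det = ev φ q := by
    intro q
    rw [hdet', div_eq_iff hdet]
    unfold minorCram
    rw [map_sum]
    have h1 : ∀ l, eval p (pCoord (A := MvPolynomial (PIdx n r R) k) X q.1 (τ l) *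
        (minorMat (k := k) b τ).adjugate l q.2) =
        (Matrix.vecMul (φ (monomial q.1 1)) B) l * B.adjugate l q.2 := by
      intro l
      rw [map_mul, eval_pCoord, ← hΦ, hsum, ← hBe, ← RingHom.map_adjugate, hBe,
        Finset.sum_apply]
      rfl
    rw [Finset.sum_congr rfl fun l _ => h1 l]
    have h2 := congrFun (Matrix.vecMul_vecMul (φ (monomial q.1 1)) B B.adjugate) q.2
    have h3 : (∑ l, (Matrix.vecMul (φ (monomial q.1 1)) B) l * B.adjugate l q.2) =
        Matrix.vecMul (Matrix.vecMul (φ (monomial q.1 1)) B) B.adjugate q.2 := rfl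
    rw [h3, h2, Matrix.mul_adjugate, Matrix.vecMul_smul, Matrix.vecMul_one, Pi.smul_apply,
      smul_eq_mul, mul_comm]
    rfl
  rw [map_prod]
  refine Finset.prod_eq_zero (Finset.mem_univ τ) ?_
  have h4 := hP' τ p (by rw [hdet']; exact hdet)
  have h5 : (fun α => eval p (minorCram (k := k) b τ (c α)) /
      eval p (minorMat (k := k) b τ).det) = fun α => ev φ (c α) := by
    funext α
    exact hcram (c α)
  rw [h5] at h4
  exact h4

end

end Pool.Agent.V5helper89.Hilb
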