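import Pool.Agent.V5helper89.Hilb.Param

/-!
# Ideals with small local components depend on few parameters
-/

set_option autoImplicit false

open MvPolynomial Topology

namespace Pool.Agent.V5helper89.Hilb

noncomputable section

universe u v

variable {k : Type u} [Field k] {n r R : ℕ}

/-- Ideals which are intersections of pairwise coprime ideals of colength at most `R`. -/
inductive Dec (R : ℕ) : Ideal (MvPolynomial (Fin n) k) → Prop
  | small (I : Ideal (MvPolynomial (Fin n) k))
      (h : Module.Finite k (MvPolynomial (Fin n) k ⧸ I))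
      (h' : Module.finrank k (MvPolynomial (Fin n) k ⧸ I) ≤ R) : Dec R I
  | inter (I J : Ideal (MvPolynomial (Fin n) k)) (hI : Dec R I) (hJ : Dec R J)
      (h : I ⊔ J = ⊤) : Dec R (I ⊓ J)

/-- The noncommutative monomial. -/
def mon {A : Type*} [CommRing A] (Y : Fin n → Matrix (Fin R) (Fin R) A) (m : Fin n →₀ ℕ) :
    Matrix (Fin R) (Fin R) A :=
  ((List.finRange n).map fun i => Y i ^ m i).prod

lemma map_mon {A B : Type*} [CommRing A] [CommRing B] (θ : A →+* B)
    (Y : Fin n → Matrix (Fin R) (Fin R) A) (m : Fin n →₀ ℕ) :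
    θ.mapMatrix (mon Y m) = mon (fun i => θ.mapMatrix (Y i)) m := by
  unfold mon
  rw [map_list_prod, List.map_map]
  congr 1
  refine List.map_congr_left fun i _ => ?_
  rw [Function.comp_apply, map_pow]

/-- A block: matrices and a vector. -/
abbrev Block (k : Type u) (n R : ℕ) : Type u :=
  (Fin n → Matrix (Fin R) (Fin R) k) × (Fin R → k)

/-- The map of a block. -/
def Block.map (B : Block k n R) : MvPolynomial (Fin n) k →ₗ[k] (Fin R → k) :=
  (MvPolynomial.basisMonomials (Fin n) k).constr k fun m => (mon B.1 m).mulVec B.2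

lemma Block.map_monomial (B : Block k n R) (m : Fin n →₀ ℕ) :
    B.map (monomial m 1) = (mon B.1 m).mulVec B.2 := by
  have h := (MvPolynomial.basisMonomials (Fin n) k).constr_basis k
    (fun m => (mon B.1 m).mulVec B.2) m
  rw [coe_basisMonomials] at h
  exact h

lemma zero_block_map (g : MvPolynomial (Fin n) k) :
    Block.map ((0, 0) : Block k n R) g = 0 := by
  have h : Block.map ((0, 0) : Block k n R) = 0 := by
    apply (MvPolynomial.basisMonomials (Fin n) k).ext
    intro m
    rw [coe_basisMonomials, Block.map_monomial]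
    simp
  rw [h]
  rfl

lemma monomial_eq_list (m : Fin n →₀ ℕ) :
    (monomial m 1 : MvPolynomial (Fin n) k) =
      ((List.finRange n).map fun i => (X i : MvPolynomial (Fin n) k) ^ m i).prod := by
  rw [monomial_eq, C_1, one_mul, Finsupp.prod_fintype _ _ (fun i => pow_zero _)]
  rw [← List.prod_ofFn, List.ofFn_eq_map]

/-- The block of an ideal of small colength. -/
lemma exists_block (I : Ideal (MvPolynomial (Fin n) k))
    (h : Module.Finite k (MvPolynomial (Fin n) k ⧸ I))
    (h' : Module.finrank k (MvPolynomial (Fin n) k ⧸ I) ≤ R) :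
    ∃ B : Block k n R, ∀ g, g ∈ I ↔ B.map g = 0 := by
  obtain ⟨ι, hι⟩ : ∃ ι : (MvPolynomial (Fin n) k ⧸ I) →ₗ[k] (Fin R → k), Function.Injective ι := by
    refine ⟨(Function.ExtendByZero.linearMap k (Fin.castLE h')).comp
      (Module.finBasis k (MvPolynomial (Fin n) k ⧸ I)).equivFun.toLinearMap, ?_⟩
    have h1 : Function.Injective (Function.ExtendByZero.linearMap k (Fin.castLE h')) := by
      intro x y hxy
      have h2 : Function.extend (Fin.castLE h') x 0 = Function.extend (Fin.castLE h') y 0 := hxy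
      ext i
      have h3 := congrFun h2 (Fin.castLE h' i)
      rwa [(Fin.castLE_injective h').extend_apply, (Fin.castLE_injective h').extend_apply] at h3
    exact h1.comp (Module.finBasis k (MvPolynomial (Fin n) k ⧸ I)).equivFun.injective
  obtain ⟨π, hπ⟩ := ι.exists_leftInverse_of_injective (LinearMap.ker_eq_bot.2 hι)
  have hπ' : ∀ x, π (ι x) = x := fun x => LinearMap.congr_fun hπ x
  let Y : Fin n → Matrix (Fin R) (Fin R) k := fun i =>
    LinearMap.toMatrix' (ι ∘ₗ (LinearMap.mulLeft k (Ideal.Quotient.mk I (X i))) ∘ₗ π)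
  have hY : ∀ i x, (Y i).mulVec (ι x) = ι (Ideal.Quotient.mk I (X i) * x) := by
    intro i x
    have h1 := LinearMap.toMatrix'_mulVec
      (ι ∘ₗ (LinearMap.mulLeft k (Ideal.Quotient.mk I (X i))) ∘ₗ π) (ι x)
    rw [LinearMap.comp_apply, LinearMap.comp_apply, hπ', LinearMap.mulLeft_apply] at h1
    exact h1
  have hYp : ∀ i (d : ℕ) x, (Y i ^ d).mulVec (ι x) = ι (Ideal.Quotient.mk I (X i ^ d) * x) := by
    intro i d
    induction d with
    | zero => intro x; simp
    | succ d ih =>
      intro x
      rw [pow_succ, ← Matrix.mulVec_mulVec, hY, ih, ← mul_assoc, ← map_mul, ← pow_succ]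
  have hlist : ∀ (m : Fin n →₀ ℕ) (l : List (Fin n)) x,
      ((l.map fun i => Y i ^ m i).prod).mulVec (ι x) =
        ι (Ideal.Quotient.mk I ((l.map fun i => (X i : MvPolynomial (Fin n) k) ^ m i).prod) * x) := by
    intro m l
    induction l with
    | nil => intro x; simp
    | cons i l ih =>
      intro x
      rw [List.map_cons, List.prod_cons, ← Matrix.mulVec_mulVec, ih, hYp, List.map_cons,
        List.prod_cons, map_mul (Ideal.Quotient.mk I), mul_assoc]
  refine ⟨(Y, ι 1), ?_⟩
  have hmap : Block.map ((Y, ι 1) : Block k n R) = ι ∘ₗ (Ideal.Quotient.mkₐ k I).toLinearMap := by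
    apply (MvPolynomial.basisMonomials (Fin n) k).ext
    intro m
    rw [coe_basisMonomials, Block.map_monomial]
    unfold mon
    rw [hlist, mul_one, ← monomial_eq_list]
    rfl
  intro g
  rw [hmap]
  constructor
  · intro hg
    have h1 : Ideal.Quotient.mk I g = 0 := Ideal.Quotient.eq_zero_iff_mem.2 hg
    change ι (Ideal.Quotient.mk I g) = 0
    rw [h1, map_zero]
  · intro hg
    change ι (Ideal.Quotient.mk I g) = 0 at hg
    rw [← Ideal.Quotient.eq_zero_iff_mem]
    exact hι (by rw [hg, map_zero])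

/-- The colength of the intersection of two coprime ideals. -/
lemma finrank_inf {I J : Ideal (MvPolynomial (Fin n) k)} (h : I ⊔ J = ⊤)
    (hI : Module.Finite k (MvPolynomial (Fin n) k ⧸ I))
    (hJ : Module.Finite k (MvPolynomial (Fin n) k ⧸ J)) :
    Module.Finite k (MvPolynomial (Fin n) k ⧸ (I ⊓ J)) ∧
    Module.finrank k (MvPolynomial (Fin n) k ⧸ (I ⊓ J)) =
      Module.finrank k (MvPolynomial (Fin n) k ⧸ I) +
        Module.finrank k (MvPolynomial (Fin n) k ⧸ J) := by
  have e := Ideal.quotientInfEquivQuotientProd I J (Ideal.isCoprime_iff_sup_eq.2 h)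
  let φ : MvPolynomial (Fin n) k →ₗ[k]
      ((MvPolynomial (Fin n) k ⧸ I) × (MvPolynomial (Fin n) k ⧸ J)) :=
    (Ideal.Quotient.mkₐ k I).toLinearMap.prod (Ideal.Quotient.mkₐ k J).toLinearMap
  have hker : LinearMap.ker φ = (I ⊓ J).restrictScalars k := by
    ext g
    rw [LinearMap.mem_ker]
    change ((Ideal.Quotient.mk I g, Ideal.Quotient.mk J g) : _ × _) = 0 ↔ _
    rw [Prod.mk_eq_zero, Ideal.Quotient.eq_zero_iff_mem, Ideal.Quotient.eq_zero_iff_mem]
    rfl
  have hsurj : Function.Surjective φ := by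
    rintro ⟨x, y⟩
    obtain ⟨x, rfl⟩ := Ideal.Quotient.mk_surjective x
    obtain ⟨y, rfl⟩ := Ideal.Quotient.mk_surjective y
    obtain ⟨a, ha, b, hb, hab⟩ := Submodule.mem_sup.1 ((Ideal.eq_top_iff_one _).1 h)
    refine ⟨b * x + a * y, ?_⟩
    change ((Ideal.Quotient.mk I (b * x + a * y), Ideal.Quotient.mk J (b * x + a * y)) : _ × _) = _
    rw [Prod.mk.injEq, Ideal.Quotient.eq, Ideal.Quotient.eq]
    constructor
    · have : b * x + a * y - x = a * (y - x) := by
        linear_combination x * hab
      rw [this]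
      exact I.mul_mem_right _ ha
    · have : b * x + a * y - y = b * (x - y) := by
        linear_combination y * hab
      rw [this]
      exact J.mul_mem_right _ hb
  have e' : (MvPolynomial (Fin n) k ⧸ (I ⊓ J)) ≃ₗ[k]
      ((MvPolynomial (Fin n) k ⧸ I) × (MvPolynomial (Fin n) k ⧸ J)) :=
    ((Submodule.Quotient.restrictScalarsEquiv k (I ⊓ J)).symm.trans
      (Submodule.quotEquivOfEq _ _ hker.symm)).trans (φ.quotKerEquivOfSurjective hsurj)
  exact ⟨Module.Finite.equiv e'.symm, by rw [e'.finrank_eq, Module.finrank_prod]⟩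

lemma Dec.finite {I : Ideal (MvPolynomial (Fin n) k)} (h : Dec R I) :
    Module.Finite k (MvPolynomial (Fin n) k ⧸ I) := by
  induction h with
  | small I h h' => exact h
  | inter I J _ _ h hI hJ => exact (finrank_inf h hI hJ).1

/-- A list of blocks for a decomposable ideal. -/
lemma exists_blocks {I : Ideal (MvPolynomial (Fin n) k)} (h : Dec R I) :
    ∃ l : List (Block k n R), l.length ≤ Module.finrank k (MvPolynomial (Fin n) k ⧸ I) ∧
      ∀ g, g ∈ I ↔ ∀ B ∈ l, B.map g = 0 := by
  induction h with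
  | small I h h' =>
    rcases Nat.eq_zero_or_pos (Module.finrank k (MvPolynomial (Fin n) k ⧸ I)) with h0 | h0
    · refine ⟨[], by simp, fun g => ?_⟩
      have h1 : Subsingleton (MvPolynomial (Fin n) k ⧸ I) := Module.finrank_zero_iff.1 h0
      have h2 : I = ⊤ := Ideal.Quotient.subsingleton_iff.1 h1
      rw [h2]
      simp
    · obtain ⟨B, hB⟩ := exists_block I h h'
      exact ⟨[B], h0, fun g => by simp [hB]⟩
  | inter I J hI' hJ' h hI hJ =>
    obtain ⟨l, hl, hl'⟩ := hI
    obtain ⟨l₂, hl₂, hl₂'⟩ := hJ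
    refine ⟨l ++ l₂, ?_, ?_⟩
    · rw [List.length_append, (finrank_inf h hI'.finite hJ'.finite).2]
      omega
    · intro g
      rw [Submodule.mem_inf, hl', hl₂']
      simp only [List.mem_append]
      constructor
      · rintro ⟨h1, h2⟩ B (hB | hB)
        · exact h1 B hB
        · exact h2 B hB
      · intro h1
        exact ⟨fun B hB => h1 B (Or.inl hB), fun B hB => h1 B (Or.inr hB)⟩

/-- The index set of the parameters. -/
abbrev PIdx (n r R : ℕ) : Type := Fin r × ((Fin n × Fin R × Fin R) ⊕ Fin R)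

/-- The block with the parameters `p`. -/
def pBlock {A : Type*} (p : PIdx n r R → A) (j : Fin r) :
    (Fin n → Matrix (Fin R) (Fin R) A) × (Fin R → A) :=
  (fun i => Matrix.of fun a c => p (j, Sum.inl (i, a, c)), fun a => p (j, Sum.inr a))

/-- The coordinates of the monomial `m`. -/
def pCoord {A : Type*} [CommRing A] (p : PIdx n r R → A) (m : Fin n →₀ ℕ) (x : Fin r × Fin R) : A :=
  (mon (pBlock p x.1).1 m).mulVec (pBlock p x.1).2 x.2

lemma map_pCoord {A B : Type*} [CommRing A] [CommRing B] (θ : A →+* B) (p : PIdx n r R → A)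
    (m : Fin n →₀ ℕ) (x : Fin r × Fin R) :
    θ (pCoord p m x) = pCoord (fun i => θ (p i)) m x := by
  unfold pCoord
  have h1 := RingHom.map_mulVec θ (mon (pBlock p x.1).1 m) (pBlock p x.1).2 x.2
  rw [h1]
  have h2 := map_mon θ (pBlock p x.1).1 m
  rw [RingHom.mapMatrix_apply] at h2
  rw [h2]
  rfl

/-- A decomposable ideal is given by the parameters. -/
lemma exists_params {I : Ideal (MvPolynomial (Fin n) k)} (h : Dec R I)
    (hr : Module.finrank k (MvPolynomial (Fin n) k ⧸ I) = r) :
    ∃ (p : PIdx n r R → k) (Φ : MvPolynomial (Fin n) k →ₗ[k] (Fin r × Fin R → k)),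
      (∀ m x, Φ (monomial m 1) x = pCoord p m x) ∧ ∀ g, g ∈ I ↔ Φ g = 0 := by
  obtain ⟨l, hl, hl'⟩ := exists_blocks h
  rw [hr] at hl
  set β : Fin r → Block k n R := fun j => l.getD j (0, 0) with hβ
  set p : PIdx n r R → k := fun x => Sum.elim (fun y => (β x.1).1 y.1 y.2.1 y.2.2)
    (fun a => (β x.1).2 a) x.2 with hp
  have hpb : ∀ j, pBlock p j = β j := by
    intro j
    rfl
  set Φ : MvPolynomial (Fin n) k →ₗ[k] (Fin r × Fin R → k) :=
    LinearMap.pi fun x => (LinearMap.proj x.2).comp (β x.1).map with hΦ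
  refine ⟨p, Φ, ?_, ?_⟩
  · intro m x
    unfold pCoord
    rw [hpb, ← Block.map_monomial]
    rfl
  · intro g
    rw [hl']
    constructor
    · intro h1
      ext x
      change (β x.1).map g x.2 = 0
      have h2 : (β x.1).map g = 0 := by
        rw [hβ]
        simp only
        by_cases hx : (x.1 : ℕ) < l.length
        · rw [List.getD_eq_getElem _ _ hx]
          exact h1 _ (List.getElem_mem hx)
        · rw [List.getD_eq_default _ _ (not_lt.1 hx)]
          exact zero_block_map g
      rw [h2]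
      rfl
    · intro h1 B hB
      obtain ⟨i, hi, rfl⟩ := List.getElem_of_mem hB
      have h2 : β ⟨i, lt_of_lt_of_le hi hl⟩ = l[i] := by
        rw [hβ]
        simp only
        rw [List.getD_eq_getElem _ _ hi]
      rw [← h2]
      ext a
      have h3 := congrFun h1 (⟨i, lt_of_lt_of_le hi hl⟩, a)
      exact h3

end

end Pool.Agent.V5helper89.Hilb
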